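import Mathlib
import Pool.Agent.Lib.MP_663568_e.EDefs

/-!
# Horizontal coordinates of the square modulo one: no small relations for most shifts
-/

set_option autoImplicit false
open Finset

namespace Pool.Agent.Lib.MP_663568_nt.NC

open Katai Nul T3 E

/-- the horizontal coordinates of the element of the square for the shift `r`, when the slope is
`θ` modulo one; `ω` depends on the integral part of the slope -/
noncomputable def thz {β β₂ : Type} [Fintype β] (b : β₂ → β → β → ℤ) (θ : β → ℝ) (ω : β₂ → ℝ)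
    (r : ℕ) : β ⊕ β₂ → ℝ := Sum.elim θ fun k => Psi (b k) θ r + r * ω k

/-- One relation. -/
lemma rel_goodZ {β β₂ : Type} [Fintype β] [Fintype β₂] (b : β₂ → β → β → ℤ)
    (hb : ∀ w : β₂ → ℤ, w ≠ 0 → ∃ j i, ∑ k, w k * b k j i ≠ 0) (K' : ℕ)
    (q : β ⊕ β₂ → ℤ) (hq : q ≠ 0) (hqK : ∀ j, |q j| ≤ (K' : ℤ)) (δ : ℝ) (hδ : 0 < δ) :
    ∃ K : ℕ, ∀ θ : β → ℝ, NR K θ → ∀ ω : β₂ → ℝ,
      Rare δ (fun r : ℕ => ∃ z : ℤ, ∑ s, (q s : ℝ) * thz b θ ω r s = z) := by
  classical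
  by_cases hw : (fun k => q (Sum.inr k)) = 0
  · refine ⟨K', fun θ hθ ω => Rare.of_forall_not hδ.le ?_⟩
    rintro r _ ⟨z, hz⟩
    have hw' : ∀ k, q (Sum.inr k) = 0 := fun k => congrFun hw k
    rw [Fintype.sum_sum_type] at hz
    simp only [thz, Sum.elim_inl, Sum.elim_inr, hw', Int.cast_zero, zero_mul, sum_const_zero,
      add_zero] at hz
    refine hθ (fun j => q (Sum.inl j)) ?_ (fun j => hqK _) z hz
    intro h0
    apply hq
    funext s
    rcases s with j | k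
    · exact congrFun h0 j
    · exact hw' k
  · obtain ⟨j₀, i₀, hM⟩ := hb _ hw
    set M : β → β → ℤ := fun j i => ∑ k, q (Sum.inr k) * b k j i with hMdef
    set M₀ : ℕ := ∑ j, ∑ i, (M j i).natAbs with hM₀
    have hMle : ∀ j i, (M j i).natAbs ≤ M₀ := by
      intro j i
      calc (M j i).natAbs ≤ ∑ i, (M j i).natAbs :=
            single_le_sum (f := fun i => (M j i).natAbs) (fun _ _ => Nat.zero_le _) (mem_univ i)
        _ ≤ M₀ := single_le_sum (f := fun j => ∑ i, (M j i).natAbs)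
            (fun _ _ => Nat.zero_le _) (mem_univ j)
    have hrow : ∀ j, ∑ i, (M j i).natAbs ≤ M₀ := fun j =>
      single_le_sum (f := fun j => ∑ i, (M j i).natAbs) (fun _ _ => Nat.zero_le _) (mem_univ j)
    obtain ⟨K₂, hK₂⟩ := bracket_count (β := β) (M₀ : ℝ) (Nat.cast_nonneg _) δ hδ
    refine ⟨K₂ * (M₀ + 1), fun θ hθ ω => ?_⟩
    set ζ : β → ℝ := fun j => ∑ i, (M j i : ℝ) * Int.fract (θ i) with hζ
    set om : ℝ := ∑ k, (q (Sum.inr k) : ℝ) * ω k with hom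
    obtain ⟨R₀, hR₀⟩ := hK₂ θ (hθ.mono' (Nat.le_mul_of_pos_right _ (Nat.succ_pos _)))
      (∑ j, ζ j * θ j + om) (∑ j, (q (Sum.inl j) : ℝ) * θ j) (fun j => -ζ j) (by
        intro j
        rw [abs_neg]
        calc |ζ j| ≤ ∑ i, |(M j i : ℝ) * Int.fract (θ i)| := abs_sum_le_sum_abs _ _
          _ ≤ ∑ i, ((M j i).natAbs : ℝ) := by
              refine sum_le_sum fun i _ => ?_
              rw [abs_mul, abs_of_nonneg (Int.fract_nonneg (θ i))]
              have h1 : |(M j i : ℝ)| = ((M j i).natAbs : ℝ) := by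
                rw [Nat.cast_natAbs, Int.cast_abs]
              rw [h1]
              exact mul_le_of_le_one_right (Nat.cast_nonneg _) (Int.fract_lt_one _).le
          _ ≤ M₀ := by exact_mod_cast hrow j) ⟨j₀, by
        intro m hm1 hmK z hz
        refine hθ (fun i => (m : ℤ) * M j₀ i) ?_ ?_ (-z + ∑ i, (m : ℤ) * M j₀ i * ⌊θ i⌋) ?_
        · intro h0
          have h1 := congrFun h0 i₀
          simp only [Pi.zero_apply, mul_eq_zero] at h1
          rcases h1 with h1 | h1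
          · omega
          · exact hM h1
        · intro i
          rw [abs_mul, Nat.abs_cast]
          have h1 : |M j₀ i| ≤ (M₀ : ℤ) := by
            rw [Int.abs_eq_natAbs]
            exact_mod_cast hMle j₀ i
          push_cast
          have h2 : |M j₀ i| ≤ (M₀ : ℤ) + 1 := by omega
          exact mul_le_mul (by exact_mod_cast hmK) h2 (abs_nonneg _) (by positivity)
        · push_cast
          have h1 : ∑ i, (m : ℝ) * (M j₀ i : ℝ) * θ i =
              (m : ℝ) * ζ j₀ + ∑ i, (m : ℝ) * (M j₀ i : ℝ) * (⌊θ i⌋ : ℝ) := by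
            rw [hζ, mul_sum, ← sum_add_distrib]
            refine sum_congr rfl fun i _ => ?_
            have h2 := Int.floor_add_fract (θ i)
            calc (m : ℝ) * (M j₀ i : ℝ) * θ i
                = (m : ℝ) * (M j₀ i : ℝ) * ((⌊θ i⌋ : ℝ) + Int.fract (θ i)) := by rw [h2]
              _ = _ := by ring
          rw [h1]
          linarith⟩
    refine ⟨R₀, fun R hR => le_trans ?_ (hR₀ R hR)⟩
    rw [Nat.cast_le]
    refine card_le_card fun r hr => ?_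
    rw [mem_filter] at hr ⊢
    refine ⟨hr.1, ?_⟩
    obtain ⟨z, hz⟩ := hr.2
    refine ⟨z - ∑ j, ∑ i, M j i * ⌊(r : ℝ) * θ j⌋ * ⌊θ i⌋, ?_⟩
    rw [Fintype.sum_sum_type] at hz
    simp only [thz, Sum.elim_inl, Sum.elim_inr, Psi] at hz
    have h0 : ∑ k, (q (Sum.inr k) : ℝ) *
        (∑ j, ∑ i, (b k j i : ℝ) * (⌊(r : ℝ) * θ j⌋ : ℝ) * θ i + r * ω k) =
        ∑ k, (q (Sum.inr k) : ℝ) * ∑ j, ∑ i, (b k j i : ℝ) * (⌊(r : ℝ) * θ j⌋ : ℝ) * θ i +
          om * r := by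
      rw [hom, sum_mul, ← sum_add_distrib]
      exact sum_congr rfl fun k _ => by ring
    have h1 : ∑ k, (q (Sum.inr k) : ℝ) * ∑ j, ∑ i, (b k j i : ℝ) * (⌊(r : ℝ) * θ j⌋ : ℝ) * θ i =
        ∑ j, ∑ i, (M j i : ℝ) * (⌊(r : ℝ) * θ j⌋ : ℝ) * θ i := by
      simp only [mul_sum, hMdef]
      rw [sum_comm]
      refine sum_congr rfl fun j _ => ?_
      rw [sum_comm]
      refine sum_congr rfl fun i _ => ?_
      push_cast
      rw [sum_mul, sum_mul]
      refine sum_congr rfl fun k _ => ?_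
      ring
    rw [h0, h1] at hz
    have h2 : ∀ j, ∑ i, (M j i : ℝ) * (⌊(r : ℝ) * θ j⌋ : ℝ) * θ i =
        ζ j * θ j * r - ζ j * Int.fract ((r : ℝ) * θ j) +
          ∑ i, (M j i : ℝ) * (⌊(r : ℝ) * θ j⌋ : ℝ) * (⌊θ i⌋ : ℝ) := by
      intro j
      have h3 := Int.floor_add_fract ((r : ℝ) * θ j)
      have h4 : ζ j * θ j * r - ζ j * Int.fract ((r : ℝ) * θ j) =
          ζ j * (⌊(r : ℝ) * θ j⌋ : ℝ) := by
        have h5 : (⌊(r : ℝ) * θ j⌋ : ℝ) = r * θ j - Int.fract ((r : ℝ) * θ j) := by linarith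
        rw [h5]
        ring
      rw [h4, hζ, sum_mul, ← sum_add_distrib]
      refine sum_congr rfl fun i _ => ?_
      have h2 := Int.floor_add_fract (θ i)
      calc (M j i : ℝ) * (⌊(r : ℝ) * θ j⌋ : ℝ) * θ i
          = (M j i : ℝ) * (⌊(r : ℝ) * θ j⌋ : ℝ) * ((⌊θ i⌋ : ℝ) + Int.fract (θ i)) := by rw [h2]
        _ = _ := by ring
    rw [sum_congr rfl fun j _ => h2 j, sum_add_distrib, sum_sub_distrib, ← sum_mul] at hz
    push_cast
    have h6 : ∑ j, -ζ j * Int.fract ((r : ℝ) * θ j) = -∑ j, ζ j * Int.fract ((r : ℝ) * θ j) := by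
      rw [← sum_neg_distrib]
      refine sum_congr rfl fun j _ => ?_
      ring
    rw [h6]
    linarith

/-- For most shifts there are no small relations. -/
theorem goodZ {β β₂ : Type} [Fintype β] [Fintype β₂] (b : β₂ → β → β → ℤ)
    (hb : ∀ w : β₂ → ℤ, w ≠ 0 → ∃ j i, ∑ k, w k * b k j i ≠ 0) (K' : ℕ) (δ : ℝ) (hδ : 0 < δ) :
    ∃ K : ℕ, ∀ θ : β → ℝ, NR K θ → ∀ ω : β₂ → ℝ,
      Rare δ (fun r : ℕ => ¬ NR K' (thz b θ ω r)) := by
  classical
  set W : Finset (β ⊕ β₂ → ℤ) :=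
    (Fintype.piFinset fun _ : β ⊕ β₂ => Icc (-(K' : ℤ)) (K' : ℤ)).filter (· ≠ 0) with hW
  have hWmem : ∀ q, q ∈ W ↔ q ≠ 0 ∧ ∀ s, |q s| ≤ (K' : ℤ) := by
    intro q
    rw [hW, mem_filter, Fintype.mem_piFinset, and_comm]
    simp only [mem_Icc, abs_le]
  set δ' : ℝ := δ / (W.card + 1) with hδ'
  have hδ'0 : 0 < δ' := by positivity
  have hex : ∀ q : β ⊕ β₂ → ℤ, ∃ K : ℕ, q ∈ W → ∀ θ : β → ℝ, NR K θ → ∀ ω : β₂ → ℝ,
      Rare δ' (fun r : ℕ => ∃ z : ℤ, ∑ s, (q s : ℝ) * thz b θ ω r s = z) := by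
    intro q
    by_cases hq : q ∈ W
    · obtain ⟨h1, h2⟩ := (hWmem q).1 hq
      obtain ⟨K, hK⟩ := rel_goodZ b hb K' q h1 h2 δ' hδ'0
      exact ⟨K, fun _ => hK⟩
    · exact ⟨0, fun h => absurd h hq⟩
  choose Kf hKf using hex
  refine ⟨W.sup Kf, fun θ hθ ω => ?_⟩
  have h1 := Rare.bunion W (δ := fun _ => δ')
    (P := fun q r => ∃ z : ℤ, ∑ s, (q s : ℝ) * thz b θ ω r s = z)
    (fun q hq => hKf q hq θ (hθ.mono' (Finset.le_sup hq)) ω)
  refine h1.mono ?_ ?_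
  · rw [sum_const, nsmul_eq_mul, hδ', mul_div_assoc', div_le_iff₀ (by positivity)]
    nlinarith [hδ.le]
  · intro r _ hr
    unfold NR at hr
    push Not at hr
    obtain ⟨q, hq0, hqK, z, hz⟩ := hr
    exact ⟨q, (hWmem q).2 ⟨hq0, hqK⟩, z, hz⟩

end Pool.Agent.Lib.MP_663568_nt.NC
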