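import Mathlib
import Pool.Agent.Lib.NC62.N1
import Pool.Agent.Lib.MP_663568_e.E09A
import Pool.Agent.Lib.MP_663568_tw.VDefs

/-!
# One van der Corput step for slopes modulo one
-/

set_option autoImplicit false
open Finset

namespace Pool.Agent.Lib.MP_663568_nt.NC

open Katai Tw Fib Nul T3 E

/-- the vectors `u` and `θ` are `ρ`-close modulo one -/
def NearZ {J : Type} (ρ : ℝ) (u θ : J → ℝ) : Prop := ∀ j, ∃ z : ℤ, |u j - θ j - z| < ρ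

/-- the averages of `F`, twisted by the elements of `T`, along the orbits of all `g` with
horizontal coordinates near `θ` modulo one are at most `ε` -/
def LocZ {G : Type} [Group G] {J : Type} (T : Set (ℕ → ℂ)) (p : G → J → ℝ) (F : G → ℂ) (θ : J → ℝ)
    (ε : ℝ) : Prop :=
  ∃ ρ : ℝ, 0 < ρ ∧ ∃ L₀ : ℕ, ∀ L : ℕ, L₀ ≤ L → ∀ g x : G, NearZ ρ (p g) θ →
    ∀ t ∈ T, ‖∑ l ∈ Icc 1 L, F (g ^ l * x) * t l‖ ≤ ε * L

variable {G : Type} [Group G] [TopologicalSpace G] [IsTopologicalGroup G] {A : ℕ → Subgroup G}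
  {Γ : Subgroup G}
  {β : ℕ → Type} [∀ s, Fintype (β s)] [∀ s, DecidableEq (β s)]
  {π : (s : ℕ) → G → β s → ℝ} {e : (s : ℕ) → β s → ℝ → G}

/-- One van der Corput step, for one value of the shift `ω` of the second coordinates. -/
theorem step_one (s : ℕ) (hs : 1 ≤ s) (d : ℕ) (T : Set (ℕ → ℂ)) (hT : Tame (d + 1) T)
    (B : ℝ) (hB : 0 < B) (hTB : ∀ t ∈ T, ∀ l, ‖t l‖ ≤ B) (hN : NS A Γ π e)
    (b : β 2 → β 1 → β 1 → ℤ) (hb : CF π b)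
    (F : G → ℂ) (hF : LevN A Γ e (s + 1) F) (hG : GoodN e (s + 1) F) (hF1 : ∀ x, ‖F x‖ * B ≤ 1)
    (ε : ℝ) (hε : 0 < ε) (hε1 : ε ≤ 1) :
    ∃ (S : Set (ℕ → ℂ)) (I : Type) (_ : Fintype I) (Ψ : I → SqG A hN.anti hN.comm hN.A0 → ℂ)
      (ε₁ : ℝ), Tame d S ∧ 0 < ε₁ ∧
      (∀ i, LevN (sqA A hN.anti hN.comm hN.A0) (sqΓ A hN.anti hN.comm hN.A0 Γ)
          (sqe A hN.anti hN.comm hN.A0 e) s (Ψ i) ∧
        GoodN (sqe A hN.anti hN.comm hN.A0 e) s (Ψ i)) ∧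
      ∀ (θ : β 1 → ℝ) (ω : β 2 → ℝ),
        Rare (ε ^ 2 / 64) (fun r => ¬ ∀ i, LocZ S (sqπ A hN.anti hN.comm hN.A0 π 1) (Ψ i)
          (thz b θ ω r : sqβ β 1 → ℝ) ε₁) →
        ∃ ρ : ℝ, 0 < ρ ∧ ∃ L₀ : ℕ, ∀ L : ℕ, L₀ ≤ L → ∀ g x : G, ∀ w : β 1 → ℤ,
          (∀ j, |π 1 g j - θ j - w j| < ρ) →
          (∀ k, ∃ z : ℤ, |(∑ j, ∑ i, (b k j i : ℝ) * (w j : ℝ) * π 1 g i) - ω k - z| < ρ) →
          ∀ t ∈ T, ‖∑ l ∈ Icc 1 L, F (g ^ l * x) * t l‖ ≤ ε * L := by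
  classical
  obtain ⟨X, hX, X₀, hX₀, hX₀X, hdec, htr⟩ := exists_trans hN
  -- the derivatives of the twists
  obtain ⟨S, hS, J, hJf, hder⟩ := hT.2 (B ^ 2 * (ε ^ 2 / 192)) (by positivity)
  obtain ⟨BS, hBS, hSB⟩ := hS.bdd
  set nJ : ℝ := (Fintype.card J : ℝ) + 1 with hnJ
  have hnJ0 : 0 < nJ := by positivity
  have hnJ1 : (Fintype.card J : ℝ) ≤ nJ := by rw [hnJ]; linarith
  obtain ⟨N, hNf, ι, hιf, Ψ, hΨ, hnet⟩ := net_decomp_freq hN s hs F hF hG X hX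
    (ε ^ 2 / (192 * (nJ * BS))) (by positivity)
  set cd : ℝ := 1 + ∑ ν : N, (Fintype.card (ι ν) : ℝ) with hcd
  have hcd0 : 0 < cd := by positivity
  set ε₁ : ℝ := ε ^ 2 / (192 * (cd * nJ)) with hε₁
  have hε₁0 : 0 < ε₁ := by positivity
  refine ⟨S, (Σ ν, ι ν), inferInstance, fun i => Ψ i.1 i.2, ε₁, hS, hε₁0,
    fun i => ⟨(hΨ i.1 i.2).1, (hΨ i.1 i.2).2.1⟩, fun θ ω hθ => ?_⟩
  obtain ⟨R₀, hR₀⟩ := hθ
  set R : ℕ := R₀ + ⌈32 / ε ^ 2⌉₊ + 1 with hR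
  have hR1 : 1 ≤ R := by omega
  have hR1r : (1 : ℝ) ≤ R := by exact_mod_cast hR1
  have hRr : 32 ≤ ε ^ 2 * R := by
    have h1 := Nat.le_ceil (32 / ε ^ 2)
    have h2 : (⌈32 / ε ^ 2⌉₊ : ℝ) ≤ R := by exact_mod_cast (by omega : ⌈32 / ε ^ 2⌉₊ ≤ R)
    have h3 := h1.trans h2
    rw [div_le_iff₀ (by positivity)] at h3
    linarith
  set θs : ℕ → β 1 ⊕ β 2 → ℝ := fun r => thz b θ ω r with hθs
  set Gd : ℕ → Prop := fun r => ∀ i : (Σ ν, ι ν), LocZ S (sqπ A hN.anti hN.comm hN.A0 π 1)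
    (Ψ i.1 i.2) (thz b θ ω r : sqβ β 1 → ℝ) ε₁ with hGd
  set S' : Finset ℕ := (Icc 1 R).filter fun r : ℕ => ¬ Gd r with hS'
  have hScard : (S'.card : ℝ) ≤ ε ^ 2 / 64 * R := by
    refine le_trans (le_of_eq ?_) (hR₀ R (by omega))
    rw [hS']
    congr!
  -- the constants for the square
  have hρL : ∀ (r : ℕ) (ν : N) (i : ι ν), ∃ ρ : ℝ, 0 < ρ ∧ ∃ L₀ : ℕ, Gd r →
      ∀ L : ℕ, L₀ ≤ L → ∀ g x : SqG A hN.anti hN.comm hN.A0,
        NearZ ρ (sqπ A hN.anti hN.comm hN.A0 π 1 g) (θs r) →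
        ∀ t ∈ S, ‖∑ l ∈ Icc 1 L, Ψ ν i (g ^ l * x) * t l‖ ≤ ε₁ * L := by
    intro r ν i
    by_cases hr : Gd r
    · obtain ⟨ρ, hρ, L₀, h⟩ := hr ⟨ν, i⟩
      exact ⟨ρ, hρ, L₀, fun _ => h⟩
    · exact ⟨1, one_pos, 0, fun h => absurd h hr⟩
  choose ρf hρf Lf hLf using hρL
  set D : ℝ := 1 + ∑ r ∈ Icc 1 R, ∑ k, ∑ j, ∑ i, |(b k j i : ℝ) * (⌊(r : ℝ) * θ j⌋ : ℝ)| with hD
  have hD0 : 0 < D := by positivity
  have hDle : ∀ r ∈ Icc 1 R, ∀ k,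
      ∑ j, ∑ i, |(b k j i : ℝ) * (⌊(r : ℝ) * θ j⌋ : ℝ)| ≤ D := by
    intro r hr k
    have h1 : ∑ j, ∑ i, |(b k j i : ℝ) * (⌊(r : ℝ) * θ j⌋ : ℝ)| ≤
        ∑ k, ∑ j, ∑ i, |(b k j i : ℝ) * (⌊(r : ℝ) * θ j⌋ : ℝ)| :=
      single_le_sum (f := fun k => ∑ j, ∑ i, |(b k j i : ℝ) * (⌊(r : ℝ) * θ j⌋ : ℝ)|)
        (fun _ _ => by positivity) (mem_univ k)
    have h2 : ∑ k, ∑ j, ∑ i, |(b k j i : ℝ) * (⌊(r : ℝ) * θ j⌋ : ℝ)| ≤
        ∑ r ∈ Icc 1 R, ∑ k, ∑ j, ∑ i, |(b k j i : ℝ) * (⌊(r : ℝ) * θ j⌋ : ℝ)| :=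
      single_le_sum (f := fun r : ℕ => ∑ k, ∑ j, ∑ i, |(b k j i : ℝ) * (⌊(r : ℝ) * θ j⌋ : ℝ)|)
        (fun _ _ => by positivity) hr
    linarith
  set E : ℝ := 1 + R + ∑ r ∈ Icc 1 R, ∑ ν, ∑ i, 1 / ρf r ν i with hE
  have hsum0 : ∀ r, 0 ≤ ∑ ν, ∑ i, 1 / ρf r ν i := fun r =>
    sum_nonneg fun ν _ => sum_nonneg fun i _ => (one_div_pos.2 (hρf r ν i)).le
  have hE1 : 0 ≤ ∑ r ∈ Icc 1 R, ∑ ν, ∑ i, 1 / ρf r ν i := sum_nonneg fun r _ => hsum0 r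
  have hE0 : 0 < E := by positivity
  have hEle : ∀ r ∈ Icc 1 R, ∀ ν i, 1 / E ≤ ρf r ν i := by
    intro r hr ν i
    have h1 : 1 / ρf r ν i ≤ ∑ i, 1 / ρf r ν i :=
      single_le_sum (f := fun i => 1 / ρf r ν i) (fun i _ => (one_div_pos.2 (hρf r ν i)).le)
        (mem_univ i)
    have h2 : ∑ i, 1 / ρf r ν i ≤ ∑ ν, ∑ i, 1 / ρf r ν i :=
      single_le_sum (f := fun ν => ∑ i, 1 / ρf r ν i) (fun ν _ =>
        sum_nonneg fun i _ => (one_div_pos.2 (hρf r ν i)).le) (mem_univ ν)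
    have h3 : ∑ ν, ∑ i, 1 / ρf r ν i ≤ ∑ r ∈ Icc 1 R, ∑ ν, ∑ i, 1 / ρf r ν i :=
      single_le_sum (f := fun r => ∑ ν, ∑ i, 1 / ρf r ν i) (fun r _ => hsum0 r) hr
    have h4 : 1 / ρf r ν i ≤ E := by
      rw [hE]
      have : (0 : ℝ) ≤ R := Nat.cast_nonneg _
      linarith
    exact (one_div_le hE0 (hρf r ν i)).2 h4
  have hER : (R : ℝ) ≤ E := by rw [hE]; linarith
  set L₀ : ℕ := ⌈128 * (R : ℝ) / ε ^ 2⌉₊ + ∑ r ∈ Icc 1 R, ∑ ν, ∑ i, Lf r ν i with hL₀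
  have hL₀le : ∀ r ∈ Icc 1 R, ∀ ν i, Lf r ν i ≤ L₀ := by
    intro r hr ν i
    have h1 : Lf r ν i ≤ ∑ i, Lf r ν i :=
      single_le_sum (f := fun i => Lf r ν i) (fun i _ => Nat.zero_le _) (mem_univ i)
    have h2 : ∑ i, Lf r ν i ≤ ∑ ν, ∑ i, Lf r ν i :=
      single_le_sum (f := fun ν => ∑ i, Lf r ν i) (fun ν _ => Nat.zero_le _) (mem_univ ν)
    have h3 : ∑ ν, ∑ i, Lf r ν i ≤ ∑ r ∈ Icc 1 R, ∑ ν, ∑ i, Lf r ν i :=
      single_le_sum (f := fun r => ∑ ν, ∑ i, Lf r ν i) (fun r _ => Nat.zero_le _) hr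
    omega
  set ρ : ℝ := 1 / (E * (D + R)) with hρ
  have hρ0 : 0 < ρ := by positivity
  refine ⟨ρ, hρ0, L₀, fun L hL g x w hg hgω t ht => ?_⟩
  have hLn : (0 : ℝ) ≤ L := Nat.cast_nonneg _
  have hD1 : 1 ≤ D := by
    rw [hD]
    have : (0 : ℝ) ≤ ∑ r ∈ Icc 1 R, ∑ k, ∑ j, ∑ i,
        |(b k j i : ℝ) * (⌊(r : ℝ) * θ j⌋ : ℝ)| := by positivity
    linarith
  have hρE : ρ ≤ 1 / E := by
    rw [hρ]
    apply one_div_le_one_div_of_le hE0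
    exact le_mul_of_one_le_right hE0.le (by linarith)
  refine vdc (fun l => F (g ^ l * x) * t l)
    (fun l => by
      rw [norm_mul]
      exact (mul_le_mul_of_nonneg_left (hTB t ht l) (norm_nonneg _)).trans (hF1 _))
    ε hε hε1 R L S' hRr ?_ ?_ ?_
  · have h1 := Nat.le_ceil (128 * (R : ℝ) / ε ^ 2)
    have h2 : (⌈128 * (R : ℝ) / ε ^ 2⌉₊ : ℝ) ≤ L := by
      exact_mod_cast (by omega : ⌈128 * (R : ℝ) / ε ^ 2⌉₊ ≤ L)
    have h3 := h1.trans h2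
    rw [div_le_iff₀ (by positivity)] at h3
    linarith
  · linarith
  -- one shift
  intro r hr hrS
  have hNR : Gd r := by
    by_contra h
    exact hrS (by rw [hS', mem_filter]; exact ⟨hr, h⟩)
  have hrR : (r : ℝ) ≤ R := by exact_mod_cast (mem_Icc.1 hr).2
  obtain ⟨x₀, hx₀, γ₀, hγ₀, hx⟩ := hdec x
  set g' : G := x₀⁻¹ * g * x₀ with hg'
  have hπg' : π 1 g' = π 1 g := pi_one_conj hN x₀ g
  set z : β 1 → ℤ := fun j => ⌊(r : ℝ) * θ j⌋ + r * w j with hz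
  obtain ⟨c, γ, hγ, hcγ, hπγ, hyc⟩ := htr x₀ hx₀ (g' ^ r) z (by
    intro j
    rw [pi_pow hN, hπg']
    have h1 : |(r : ℝ) * (π 1 g j - θ j - w j)| ≤ 1 := by
      rw [abs_mul, abs_of_nonneg (Nat.cast_nonneg r)]
      calc (r : ℝ) * |π 1 g j - θ j - w j| ≤ R * (1 / E) := by
            apply mul_le_mul hrR ((hg j).le.trans hρE) (abs_nonneg _) (Nat.cast_nonneg _)
        _ ≤ 1 := by
            rw [mul_one_div, div_le_one hE0]; exact hER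
    have h2 : |(r : ℝ) * θ j - (⌊(r : ℝ) * θ j⌋ : ℝ)| ≤ 1 := by
      rw [abs_le]
      have h3 := Int.floor_le ((r : ℝ) * θ j)
      have h4 := Int.lt_floor_add_one ((r : ℝ) * θ j)
      constructor <;> linarith
    calc |(r : ℝ) * π 1 g j - z j| = |(r : ℝ) * (π 1 g j - θ j - w j)
            + (r * θ j - (⌊(r : ℝ) * θ j⌋ : ℝ))| := by
          congr 1
          rw [hz]
          push_cast
          ring
      _ ≤ 1 + 1 := (abs_add_le _ _).trans (add_le_add h1 h2)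
      _ = 2 := by norm_num)
  obtain ⟨ν, hν⟩ := hnet (x₀ * c) hyc x₀ (hX₀X hx₀)
  -- the element of the square
  have hmem : ((γ * g' * γ⁻¹, g') : G × G) ∈ sq A hN.anti hN.comm hN.A0 1 := by
    rw [mem_sq A hN.anti hN.comm hN.A0 hN.A1]
    refine ⟨by rw [hN.A1]; trivial, by rw [hN.A1]; trivial, ?_⟩
    have := hN.comm 1 1 (Subgroup.commutator_mem_commutator (g₁ := γ) (g₂ := g')
      (by rw [hN.A1]; trivial) (by rw [hN.A1]; trivial))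
    simpa [commutatorElement_def] using this
  set p : SqG A hN.anti hN.comm hN.A0 := ⟨(γ * g' * γ⁻¹, g'), hmem⟩ with hp
  have hclose : NearZ (1 / E) (sqπ A hN.anti hN.comm hN.A0 π 1 p) (θs r) := by
    rintro (j | k)
    · refine ⟨w j, ?_⟩
      change |π 1 g' j - θ j - w j| < 1 / E
      rw [hπg']
      exact (hg j).trans_le hρE
    · obtain ⟨z₂, hz₂⟩ := hgω k
      refine ⟨∑ j, ∑ i, b k j i * ⌊(r : ℝ) * θ j⌋ * w i + r * z₂, ?_⟩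
      change |π 2 (γ * g' * γ⁻¹ * g'⁻¹) k - (Psi (b k) θ r + r * ω k) -
        ((∑ j, ∑ i, b k j i * ⌊(r : ℝ) * θ j⌋ * w i + r * z₂ : ℤ) : ℝ)| < 1 / E
      rw [hb, hπγ, hπg']
      set err : ℝ := (∑ j, ∑ i, (b k j i : ℝ) * (w j : ℝ) * π 1 g i) - ω k - z₂ with herr
      have h1 : (∑ j, ∑ i, (b k j i : ℝ) * (z j : ℝ) * π 1 g i) - (Psi (b k) θ r + r * ω k) -
          ((∑ j, ∑ i, b k j i * ⌊(r : ℝ) * θ j⌋ * w i + r * z₂ : ℤ) : ℝ) =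
          (∑ j, ∑ i, ((b k j i : ℝ) * (⌊(r : ℝ) * θ j⌋ : ℝ)) * (π 1 g i - θ i - w i))
            + r * err := by
        have e1 : ∑ j, ∑ i, (b k j i : ℝ) * (z j : ℝ) * π 1 g i =
            (∑ j, ∑ i, (b k j i : ℝ) * (⌊(r : ℝ) * θ j⌋ : ℝ) * π 1 g i) +
              r * ∑ j, ∑ i, (b k j i : ℝ) * (w j : ℝ) * π 1 g i := by
          simp only [mul_sum]
          simp only [← sum_add_distrib]
          refine sum_congr rfl fun j _ => sum_congr rfl fun i _ => ?_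
          rw [hz]
          push_cast
          ring
        have e2 : ∑ j, ∑ i, ((b k j i : ℝ) * (⌊(r : ℝ) * θ j⌋ : ℝ)) * (π 1 g i - θ i - w i) =
            (∑ j, ∑ i, (b k j i : ℝ) * (⌊(r : ℝ) * θ j⌋ : ℝ) * π 1 g i) -
              (∑ j, ∑ i, (b k j i : ℝ) * (⌊(r : ℝ) * θ j⌋ : ℝ) * θ i) -
              ∑ j, ∑ i, (b k j i : ℝ) * (⌊(r : ℝ) * θ j⌋ : ℝ) * w i := by
          simp only [← sum_sub_distrib]
          refine sum_congr rfl fun j _ => sum_congr rfl fun i _ => ?_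
          ring
        rw [e1, e2, herr]
        unfold Psi
        push_cast
        ring
      rw [h1]
      have h2 : |∑ j, ∑ i, ((b k j i : ℝ) * (⌊(r : ℝ) * θ j⌋ : ℝ)) * (π 1 g i - θ i - w i)| ≤
          D * ρ := by
        calc _ ≤ ∑ j, ∑ i, |(b k j i : ℝ) * (⌊(r : ℝ) * θ j⌋ : ℝ)| * ρ := by
              refine (abs_sum_le_sum_abs _ _).trans (sum_le_sum fun j _ => ?_)
              refine (abs_sum_le_sum_abs _ _).trans (sum_le_sum fun i _ => ?_)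
              rw [abs_mul]
              exact mul_le_mul_of_nonneg_left (hg i).le (abs_nonneg _)
          _ = (∑ j, ∑ i, |(b k j i : ℝ) * (⌊(r : ℝ) * θ j⌋ : ℝ)|) * ρ := by
              simp only [sum_mul]
          _ ≤ D * ρ := mul_le_mul_of_nonneg_right (hDle r hr k) hρ0.le
      have h3 : |(r : ℝ) * err| < R * ρ := by
        rw [abs_mul, abs_of_nonneg (Nat.cast_nonneg r)]
        calc (r : ℝ) * |err| ≤ R * |err| := mul_le_mul_of_nonneg_right hrR (abs_nonneg _)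
          _ < R * ρ := mul_lt_mul_of_pos_left hz₂ (by linarith)
      calc _ ≤ |∑ j, ∑ i, ((b k j i : ℝ) * (⌊(r : ℝ) * θ j⌋ : ℝ)) * (π 1 g i - θ i - w i)|
            + |(r : ℝ) * err| := abs_add_le _ _
        _ < D * ρ + R * ρ := by linarith
        _ = 1 / E := by
            rw [hρ]
            have : D + R ≠ 0 := by positivity
            field_simp
  -- the terms
  have hterm : ∀ l, F (g ^ (l + r) * x) * (starRingEnd ℂ) (F (g ^ l * x)) =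
      F (x₀ * c * (p ^ l).1.1) * (starRingEnd ℂ) (F (x₀ * (p ^ l).1.2)) := by
    intro l
    have e0 : ∀ n : ℕ, g ^ n * x₀ = x₀ * g' ^ n := by
      intro n
      rw [hg']
      have := conj_pow (a := x₀⁻¹) (b := g) (i := n)
      rw [inv_inv] at this
      rw [this]
      group
    have e1 : (p ^ l).1.1 = (γ * g' * γ⁻¹) ^ l := by
      rw [hp]; simp
    have e2 : (p ^ l).1.2 = g' ^ l := by
      rw [hp]; simp
    rw [e1, e2]
    congr 1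
    · have e3 : g ^ (l + r) * x = x₀ * c * (γ * g' * γ⁻¹) ^ l * (γ * γ₀) := by
        rw [hx, ← mul_assoc, e0, add_comm, pow_add, hcγ, conj_pow]
        group
      rw [e3]
      exact hF.1.2 _ _ (Γ.mul_mem hγ hγ₀)
    · rw [hx, ← mul_assoc, e0]
      rw [hF.1.2 _ _ hγ₀]
  obtain ⟨cc, hcc, hcl⟩ := hder r t ht
  have hcb : ∀ j l, ‖cc j l‖ ≤ BS := by
    intro j l
    rcases hcc j with h1 | h1
    · exact hSB _ h1 l
    · rw [h1, Pi.zero_apply, norm_zero]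
      exact hBS.le
  have hsb : ∀ l, ‖∑ j, cc j l‖ ≤ nJ * BS := by
    intro l
    refine (norm_sum_le _ _).trans ?_
    calc ∑ j, ‖cc j l‖ ≤ ∑ _j : J, BS := sum_le_sum fun j _ => hcb j l
      _ = (Fintype.card J : ℝ) * BS := by simp
      _ ≤ nJ * BS := mul_le_mul_of_nonneg_right hnJ1 hBS.le
  -- the main part
  have hsum1 : ‖∑ l ∈ Icc 1 L, (∑ i, Ψ ν i (p ^ l)) * ∑ j, cc j l‖ ≤ ε ^ 2 / 192 * L := by
    have e1 : ∑ l ∈ Icc 1 L, (∑ i, Ψ ν i (p ^ l)) * ∑ j, cc j l =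
        ∑ i, ∑ j, ∑ l ∈ Icc 1 L, Ψ ν i (p ^ l) * cc j l := by
      simp only [sum_mul_sum]
      rw [sum_comm]
      exact sum_congr rfl fun i _ => sum_comm
    rw [e1]
    have h1 : ∀ i j, ‖∑ l ∈ Icc 1 L, Ψ ν i (p ^ l) * cc j l‖ ≤ ε₁ * L := by
      intro i j
      rcases hcc j with h1 | h1
      · have h2 := hLf r ν i hNR L ((hL₀le r hr ν i).trans hL) p 1
          (fun j => by
            obtain ⟨z, hz⟩ := hclose j
            exact ⟨z, hz.trans_le (hEle r hr ν i)⟩) _ h1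
        simpa only [mul_one] using h2
      · rw [h1]
        simp only [Pi.zero_apply, mul_zero, sum_const_zero, norm_zero]
        positivity
    calc _ ≤ ∑ i, ‖∑ j, ∑ l ∈ Icc 1 L, Ψ ν i (p ^ l) * cc j l‖ := norm_sum_le _ _
      _ ≤ ∑ _i : ι ν, nJ * (ε₁ * L) := by
          refine sum_le_sum fun i _ => (norm_sum_le _ _).trans ?_
          calc _ ≤ ∑ _j : J, ε₁ * (L : ℝ) := sum_le_sum fun j _ => h1 i j
            _ = (Fintype.card J : ℝ) * (ε₁ * L) := by simp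
            _ ≤ nJ * (ε₁ * L) := mul_le_mul_of_nonneg_right hnJ1 (by positivity)
      _ = (Fintype.card (ι ν) : ℝ) * (nJ * (ε₁ * L)) := by simp
      _ ≤ cd * (nJ * (ε₁ * L)) := by
          refine mul_le_mul_of_nonneg_right ?_ (by positivity)
          have : (Fintype.card (ι ν) : ℝ) ≤ ∑ ν : N, (Fintype.card (ι ν) : ℝ) :=
            single_le_sum (f := fun ν => (Fintype.card (ι ν) : ℝ)) (fun _ _ => Nat.cast_nonneg _)
              (mem_univ ν)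
          rw [hcd]; linarith
      _ = _ := by rw [hε₁]; field_simp
  have hsum2 : ‖∑ l ∈ Icc 1 L, (F (x₀ * c * (p ^ l).1.1) * (starRingEnd ℂ)
      (F (x₀ * (p ^ l).1.2)) - ∑ i, Ψ ν i (p ^ l)) * ∑ j, cc j l‖ ≤ ε ^ 2 / 192 * L := by
    calc _ ≤ ∑ l ∈ Icc 1 L, ε ^ 2 / 192 :=
          (norm_sum_le _ _).trans (sum_le_sum fun l _ => by
            rw [norm_mul]
            calc _ ≤ ε ^ 2 / (192 * (nJ * BS)) * (nJ * BS) :=
                  mul_le_mul (hν (p ^ l)) (hsb l) (norm_nonneg _) (by positivity)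
              _ = ε ^ 2 / 192 := by field_simp)
      _ = _ := by simp; ring
  have hsum3 : ‖∑ l ∈ Icc 1 L, (F (g ^ (l + r) * x) * (starRingEnd ℂ) (F (g ^ l * x))) *
      (t (l + r) * (starRingEnd ℂ) (t l) - ∑ j, cc j l)‖ ≤ ε ^ 2 / 192 * L := by
    calc _ ≤ ∑ l ∈ Icc 1 L, ε ^ 2 / 192 :=
          (norm_sum_le _ _).trans (sum_le_sum fun l _ => by
            rw [norm_mul, norm_mul, RCLike.norm_conj]
            have h1 := hF1 (g ^ (l + r) * x)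
            have h2 := hF1 (g ^ l * x)
            have h3 : ‖F (g ^ (l + r) * x)‖ * ‖F (g ^ l * x)‖ * B ^ 2 ≤ 1 := by
              calc _ = (‖F (g ^ (l + r) * x)‖ * B) * (‖F (g ^ l * x)‖ * B) := by ring
                _ ≤ 1 * 1 := mul_le_mul h1 h2 (by positivity) zero_le_one
                _ = 1 := one_mul 1
            calc _ ≤ ‖F (g ^ (l + r) * x)‖ * ‖F (g ^ l * x)‖ * (B ^ 2 * (ε ^ 2 / 192)) :=
                  mul_le_mul_of_nonneg_left (hcl l) (by positivity)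
              _ = (‖F (g ^ (l + r) * x)‖ * ‖F (g ^ l * x)‖ * B ^ 2) * (ε ^ 2 / 192) := by ring
              _ ≤ 1 * (ε ^ 2 / 192) := mul_le_mul_of_nonneg_right h3 (by positivity)
              _ = _ := one_mul _)
      _ = _ := by simp; ring
  have hgoal : ∑ l ∈ Icc 1 L, (F (g ^ (l + r) * x) * t (l + r)) * (starRingEnd ℂ)
      (F (g ^ l * x) * t l) =
      ∑ l ∈ Icc 1 L, (F (g ^ (l + r) * x) * (starRingEnd ℂ) (F (g ^ l * x))) *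
      (t (l + r) * (starRingEnd ℂ) (t l) - ∑ j, cc j l) +
      (∑ l ∈ Icc 1 L, (F (x₀ * c * (p ^ l).1.1) * (starRingEnd ℂ)
      (F (x₀ * (p ^ l).1.2)) - ∑ i, Ψ ν i (p ^ l)) * ∑ j, cc j l +
      ∑ l ∈ Icc 1 L, (∑ i, Ψ ν i (p ^ l)) * ∑ j, cc j l) := by
    rw [← sum_add_distrib, ← sum_add_distrib]
    refine sum_congr rfl fun l _ => ?_
    rw [← hterm, map_mul]
    ring
  change ‖∑ l ∈ Icc 1 L, (F (g ^ (l + r) * x) * t (l + r)) * (starRingEnd ℂ)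
      (F (g ^ l * x) * t l)‖ ≤ ε ^ 2 / 64 * L
  rw [hgoal]
  calc _ ≤ ε ^ 2 / 192 * L + (ε ^ 2 / 192 * L + ε ^ 2 / 192 * L) :=
        (norm_add_le _ _).trans (add_le_add hsum3 ((norm_add_le _ _).trans
          (add_le_add hsum2 hsum1)))
    _ = _ := by ring

end Pool.Agent.Lib.MP_663568_nt.NC
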