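import Mathlib
import Pool.Agent.Lib.NC62.N2

/-!
# Averages along orbits of elements whose slope has no small relations modulo one
-/

set_option autoImplicit false
open Finset

namespace Pool.Agent.Lib.MP_663568_nt.NC

open Katai Tw Fib Nul T3 E

/-- **The statement of the induction on the level.**  The bound `K` for the relations depends on
the function, the twists and `ε` only; the slope of `g` is near `θ` modulo one only. -/
def EQZ (k : ℕ) : Prop :=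
  ∀ (G : Type) [Group G] [TopologicalSpace G] [IsTopologicalGroup G]
    (A : ℕ → Subgroup G) (Γ : Subgroup G)
    (β : ℕ → Type) [∀ s, Fintype (β s)] [∀ s, DecidableEq (β s)]
    (π : (s : ℕ) → G → β s → ℝ) (e : (s : ℕ) → β s → ℝ → G), NS A Γ π e →
    ∀ T : Set (ℕ → ℂ), Tame k T → ∀ F : G → ℂ, LevN A Γ e (k + 1) F → GoodN e (k + 1) F →
    ∀ ε : ℝ, 0 < ε → ∃ K : ℕ, ∀ θ : β 1 → ℝ, NR K θ → LocZ T (π 1) F θ ε

section

variable {G : Type} [Group G] [TopologicalSpace G] [IsTopologicalGroup G] {A : ℕ → Subgroup G}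
  {Γ : Subgroup G}
  {β : ℕ → Type} [∀ s, Fintype (β s)] [∀ s, DecidableEq (β s)]
  {π : (s : ℕ) → G → β s → ℝ} {e : (s : ℕ) → β s → ℝ → G}

/-- The reduction to functions bounded by one. -/
theorem reduceZ (hN : NS A Γ π e) (s : ℕ) (T : Set (ℕ → ℂ))
    (B : ℝ) (hB : 0 < B)
    (H : ∀ F : G → ℂ, LevN A Γ e s F → GoodN e s F → (∀ x, ‖F x‖ * B ≤ 1) →
      ∀ ε : ℝ, 0 < ε → ε ≤ 1 → ∃ K : ℕ, ∀ θ : β 1 → ℝ, NR K θ → LocZ T (π 1) F θ ε)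
    (F : G → ℂ) (hF : LevN A Γ e s F) (hG : GoodN e s F) (ε : ℝ) (hε : 0 < ε) :
    ∃ K : ℕ, ∀ θ : β 1 → ℝ, NR K θ → LocZ T (π 1) F θ ε := by
  have hCo : Cocompact' Γ := by
    obtain ⟨C, hC1, _, hC3⟩ := hN.coc 0
    exact ⟨C, hC1, fun x => hC3 x (by rw [hN.A0]; trivial)⟩
  obtain ⟨B₁, hB₁0, hB₁⟩ := reg_bdd hCo hF.1
  have hBB : 0 < B₁ * B := by positivity
  set F' : G → ℂ := fun x => ((B₁ * B : ℝ) : ℂ)⁻¹ * F x with hF'
  have hF'L : LevN A Γ e s F' := by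
    refine ⟨reg_const_mul hF.1 _, fun z hz x => ?_, fun j => ?_⟩
    · simp only [hF']; rw [hF.2.1 z hz x]
    · obtain ⟨m, hm⟩ := hF.2.2 j
      exact ⟨m, hm.mul_const _⟩
  have hF'1 : ∀ x, ‖F' x‖ * B ≤ 1 := by
    intro x
    simp only [hF']
    rw [norm_mul, norm_inv, Complex.norm_real, Real.norm_eq_abs, abs_of_pos hBB]
    have h1 : (B₁ * B)⁻¹ * ‖F x‖ * B = B₁⁻¹ * ‖F x‖ := by field_simp
    rw [h1, inv_mul_le_iff₀ hB₁0, mul_one]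
    exact hB₁ x
  have hF'G : GoodN e s F' := by
    obtain ⟨j, m, hm, h⟩ := hG
    exact ⟨j, m, hm, h.mul_const _⟩
  obtain ⟨K, hK⟩ := H F' hF'L hF'G hF'1 (min 1 (ε / (B₁ * B)))
    (lt_min one_pos (by positivity)) (min_le_left _ _)
  refine ⟨K, fun θ hT => ?_⟩
  obtain ⟨ρ, hρ, L₀, h⟩ := hK θ hT
  refine ⟨ρ, hρ, L₀, fun L hL g x hg t ht => ?_⟩
  have h1 := h L hL g x hg t ht
  have hLn : (0 : ℝ) ≤ L := Nat.cast_nonneg _
  have e1 : ∑ l ∈ Icc 1 L, F (g ^ l * x) * t l =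
      ((B₁ * B : ℝ) : ℂ) * ∑ l ∈ Icc 1 L, F' (g ^ l * x) * t l := by
    rw [mul_sum]
    refine sum_congr rfl fun l _ => ?_
    simp only [hF']
    have : ((B₁ * B : ℝ) : ℂ) ≠ 0 := by exact_mod_cast hBB.ne'
    rw [← mul_assoc, ← mul_assoc, mul_inv_cancel₀ this, one_mul]
  rw [e1, norm_mul, Complex.norm_real, Real.norm_eq_abs, abs_of_pos hBB]
  calc B₁ * B * ‖∑ l ∈ Icc 1 L, F' (g ^ l * x) * t l‖ ≤ B₁ * B * (min 1 (ε / (B₁ * B)) * L) :=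
        mul_le_mul_of_nonneg_left h1 hBB.le
    _ ≤ B₁ * B * (ε / (B₁ * B) * L) := by
        refine mul_le_mul_of_nonneg_left ?_ hBB.le
        exact mul_le_mul_of_nonneg_right (min_le_right _ _) hLn
    _ = ε * L := by field_simp

/-- One van der Corput step. -/
theorem step_all (s : ℕ) (hs : 1 ≤ s) (d : ℕ) (T : Set (ℕ → ℂ)) (hT : Tame (d + 1) T)
    (B : ℝ) (hB : 0 < B) (hTB : ∀ t ∈ T, ∀ l, ‖t l‖ ≤ B) (hN : NS A Γ π e)
    (ih : ∀ (S : Set (ℕ → ℂ)), Tame d S → ∀ Ψ : SqG A hN.anti hN.comm hN.A0 → ℂ,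
      LevN (sqA A hN.anti hN.comm hN.A0) (sqΓ A hN.anti hN.comm hN.A0 Γ)
          (sqe A hN.anti hN.comm hN.A0 e) s Ψ → GoodN (sqe A hN.anti hN.comm hN.A0 e) s Ψ →
      ∀ ε : ℝ, 0 < ε → ∃ K : ℕ, ∀ θ : sqβ β 1 → ℝ, NR K θ →
        LocZ S (sqπ A hN.anti hN.comm hN.A0 π 1) Ψ θ ε)
    (F : G → ℂ) (hF : LevN A Γ e (s + 1) F) (hG : GoodN e (s + 1) F) (hF1 : ∀ x, ‖F x‖ * B ≤ 1)
    (ε : ℝ) (hε : 0 < ε) (hε1 : ε ≤ 1) :
    ∃ K : ℕ, ∀ θ : β 1 → ℝ, NR K θ → LocZ T (π 1) F θ ε := by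
  classical
  obtain ⟨b, hb, hb2⟩ := comm_form hN
  obtain ⟨S, I, hI, Ψ, ε₁, hS, hε₁, hΨ, hstep⟩ := step_one s hs d T hT B hB hTB hN b hb F hF hG hF1
    ε hε hε1
  choose Kf hKf using fun i => ih S hS (Ψ i) (hΨ i).1 (hΨ i).2 ε₁ hε₁
  set K' : ℕ := ∑ i, Kf i with hK'
  have hKle : ∀ i, Kf i ≤ K' := fun i =>
    single_le_sum (f := fun i => Kf i) (fun _ _ => Nat.zero_le _) (mem_univ i)
  obtain ⟨K, hK⟩ := goodZ b hb2 K' (ε ^ 2 / 64) (by positivity)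
  refine ⟨K, fun θ hθ => ?_⟩
  have h1 : ∀ ω : β 2 → ℝ, ∃ ρ : ℝ, 0 < ρ ∧ ∃ L₀ : ℕ, ∀ L : ℕ, L₀ ≤ L → ∀ g x : G,
      ∀ w : β 1 → ℤ, (∀ j, |π 1 g j - θ j - w j| < ρ) →
      (∀ k, ∃ z : ℤ, |(∑ j, ∑ i, (b k j i : ℝ) * (w j : ℝ) * π 1 g i) - ω k - z| < ρ) →
      ∀ t ∈ T, ‖∑ l ∈ Icc 1 L, F (g ^ l * x) * t l‖ ≤ ε * L := by
    intro ω
    refine hstep θ ω ((hK θ hθ ω).mono le_rfl ?_)
    intro r _ hr hGd
    exact hr fun i => hKf i _ (hGd.mono' (hKle i))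
  choose ρ hρ L₀ hL using h1
  have hcpt : IsCompact (Set.pi Set.univ fun _ : β 2 => Set.Icc (0 : ℝ) 1) :=
    isCompact_univ_pi fun _ => isCompact_Icc
  obtain ⟨t, _, hcov⟩ := hcpt.elim_nhds_subcover
    (fun ω => Metric.ball ω (ρ ω)) (fun ω _ => Metric.ball_mem_nhds ω (hρ ω))
  have hE0 : 0 ≤ ∑ ω ∈ t, 1 / ρ ω := sum_nonneg fun ω _ => (one_div_pos.2 (hρ ω)).le
  refine ⟨1 / (1 + ∑ ω ∈ t, 1 / ρ ω), by positivity, t.sup L₀, fun L hLt g x hg τ hτ => ?_⟩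
  choose w hw using hg
  set v : β 2 → ℝ := fun k => ∑ j, ∑ i, (b k j i : ℝ) * (w j : ℝ) * π 1 g i with hv
  have hmem : (fun k => Int.fract (v k)) ∈ Set.pi Set.univ fun _ : β 2 => Set.Icc (0 : ℝ) 1 :=
    fun k _ => ⟨Int.fract_nonneg _, (Int.fract_lt_one _).le⟩
  obtain ⟨ω, hωt, hω⟩ := Set.mem_iUnion₂.1 (hcov hmem)
  have hle : 1 / (1 + ∑ ω ∈ t, 1 / ρ ω) ≤ ρ ω := by
    have h2 : 1 / ρ ω ≤ ∑ ω ∈ t, 1 / ρ ω :=
      single_le_sum (f := fun ω => 1 / ρ ω) (fun ω _ => (one_div_pos.2 (hρ ω)).le) hωt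
    exact (one_div_le (by positivity) (hρ ω)).2 (by linarith)
  refine hL ω L ((Finset.le_sup hωt).trans hLt) g x w (fun j => (hw j).trans_le hle) ?_ τ hτ
  intro k
  refine ⟨⌊v k⌋, ?_⟩
  have h3 := (dist_pi_lt_iff (hρ ω)).1 (Metric.mem_ball.1 hω) k
  rw [Real.dist_eq] at h3
  have h4 : v k - ω k - (⌊v k⌋ : ℝ) = Int.fract (v k) - ω k := by
    have := Int.floor_add_fract (v k)
    linarith
  change |v k - ω k - (⌊v k⌋ : ℝ)| < ρ ω
  rw [h4]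
  exact h3

end

/-- Functions of level one. -/
theorem eqz_zero : EQZ 0 := by
  intro G _ _ _ A Γ β _ _ π e hN T hT F hF hgood ε hε
  obtain ⟨BT, hBT, hTB⟩ := hT.bdd
  obtain ⟨hreg, hinv, hfreq⟩ := hF
  obtain ⟨j₀, m₀, hm₀, hfr₀⟩ := hgood
  choose m' hm' using hfreq
  let m : β 1 → ℤ := Function.update m' j₀ m₀
  have hm : ∀ j, Freq (e 1 j) (m j) F := by
    intro j
    by_cases hj : j = j₀
    · subst hj
      simp only [m, Function.update_self]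
      exact hfr₀
    · simp only [m, Function.update_of_ne hj]
      exact hm' j
  have hm0 : m ≠ 0 := by
    intro h
    have : m j₀ = 0 := by rw [h]; rfl
    simp only [m, Function.update_self] at this
    exact hm₀ this
  have hco : Cocompact' Γ := by
    obtain ⟨C, hC, _, h2⟩ := hN.coc 0
    refine ⟨C, hC, fun x => h2 x ?_⟩
    rw [hN.A0]
    exact Subgroup.mem_top x
  obtain ⟨B, hB0, hB⟩ := reg_bdd hco hreg
  obtain ⟨K, hK⟩ : ∃ K : ℕ, ∀ j, |m j| ≤ (K : ℤ) := by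
    refine ⟨∑ j, (m j).natAbs, fun j => ?_⟩
    rw [Int.abs_eq_natAbs]
    exact_mod_cast Finset.single_le_sum (f := fun j => (m j).natAbs) (fun _ _ => Nat.zero_le _)
      (mem_univ j)
  refine ⟨K, fun θ hθ => ?_⟩
  set τ₀ : ℝ := ∑ j, (m j : ℝ) * θ j with hτ₀
  have hnd : 0 < nd τ₀ := by
    obtain ⟨z, hz⟩ := nd_exists τ₀
    rw [hz, abs_pos, sub_ne_zero]
    exact hθ m hm0 hK z
  set S : ℝ := ∑ j, |(m j : ℝ)| + 1 with hS
  have hS0 : 0 < S := by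
    have : 0 ≤ ∑ j, |(m j : ℝ)| := Finset.sum_nonneg fun _ _ => abs_nonneg _
    linarith
  refine ⟨nd τ₀ / (2 * S), by positivity, ?_⟩
  obtain ⟨L₀, hL₀⟩ := exists_nat_gt (B * BT / (nd τ₀ * ε))
  refine ⟨L₀, fun L hL g x hg t ht => ?_⟩
  choose w hw using hg
  set τ : ℝ := ∑ j, (m j : ℝ) * π 1 g j with hτ
  set W : ℤ := ∑ j, m j * w j with hW
  have hτd : |(τ - W) - τ₀| ≤ nd τ₀ / 2 := by
    have h1 : (τ - W) - τ₀ = ∑ j, (m j : ℝ) * (π 1 g j - θ j - w j) := by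
      rw [hτ, hτ₀, hW]
      push_cast
      rw [← Finset.sum_sub_distrib, ← Finset.sum_sub_distrib]
      exact Finset.sum_congr rfl fun j _ => by ring
    rw [h1]
    calc |∑ j, (m j : ℝ) * (π 1 g j - θ j - w j)| ≤ ∑ j, |(m j : ℝ) * (π 1 g j - θ j - w j)| :=
          abs_sum_le_sum_abs _ _
      _ ≤ ∑ j, |(m j : ℝ)| * (nd τ₀ / (2 * S)) := by
          refine Finset.sum_le_sum fun j _ => ?_
          rw [abs_mul]
          exact mul_le_mul_of_nonneg_left (hw j).le (abs_nonneg _)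
      _ = (∑ j, |(m j : ℝ)|) * (nd τ₀ / (2 * S)) := by rw [Finset.sum_mul]
      _ ≤ S * (nd τ₀ / (2 * S)) := by
          refine mul_le_mul_of_nonneg_right ?_ (by positivity)
          rw [hS]; linarith
      _ = nd τ₀ / 2 := by field_simp
  have hndτ : nd τ₀ / 2 ≤ nd τ := by
    have h1 := nd_le_add_abs τ₀ (τ - W)
    rw [abs_sub_comm, nd_sub_int] at h1
    linarith
  have hF1 : ∀ l : ℕ, F (g ^ l * x) * t l = ee (τ * l + 0) * (F x * t 0) := by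
    intro l
    have hgl : g ^ l ∈ A 1 := by rw [hN.A1]; exact Subgroup.mem_top _
    rw [lev_act hN le_rfl hinv m hm hgl x, pi_pow hN, hT.2 t ht l, mul_assoc]
    congr 2
    rw [hτ, add_zero, Finset.sum_mul]
    exact Finset.sum_congr rfl fun j _ => by ring
  have hsum : ∑ l ∈ Icc 1 L, F (g ^ l * x) * t l =
      (∑ l ∈ Icc 1 L, ee (τ * l + 0)) * (F x * t 0) := by
    rw [Finset.sum_mul]
    exact Finset.sum_congr rfl fun l _ => hF1 l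
  have hgeo := geom_bound τ 0 L
  have h4 := nd_le_norm_one_sub_ee τ
  have hN1 : nd τ₀ * ‖∑ l ∈ Icc 1 L, ee (τ * l + 0)‖ ≤ 1 := by
    have h5 : 2 * nd τ₀ ≤ ‖1 - ee τ‖ := by linarith
    have h6 : 2 * nd τ₀ * ‖∑ l ∈ Icc 1 L, ee (τ * l + 0)‖ ≤ 2 :=
      (mul_le_mul_of_nonneg_right h5 (norm_nonneg _)).trans hgeo
    linarith
  rw [hsum, norm_mul]
  have hLr : (L₀ : ℝ) ≤ L := by exact_mod_cast hL
  have h7 : B * BT < nd τ₀ * ε * L := by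
    have h8 : B * BT / (nd τ₀ * ε) < L := hL₀.trans_le hLr
    rw [div_lt_iff₀ (by positivity)] at h8
    linarith
  have h9 : ‖∑ l ∈ Icc 1 L, ee (τ * l + 0)‖ ≤ 1 / nd τ₀ := by
    rw [le_div_iff₀ hnd]
    linarith
  have h10 : ‖F x * t 0‖ ≤ B * BT := by
    rw [norm_mul]
    exact mul_le_mul (hB x) (hTB t ht 0) (norm_nonneg _) hB0.le
  calc ‖∑ l ∈ Icc 1 L, ee (τ * l + 0)‖ * ‖F x * t 0‖ ≤ 1 / nd τ₀ * (B * BT) :=
        mul_le_mul h9 h10 (norm_nonneg _) (by positivity)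
    _ ≤ ε * L := by
        rw [one_div, inv_mul_le_iff₀ hnd]
        linarith

/-- The induction step. -/
theorem eqz_step (k : ℕ) (ih : EQZ k) : EQZ (k + 1) := by
  intro G _ _ _ A Γ β _ _ π e hN T hT F hF hG ε hε
  obtain ⟨B, hB, hTB⟩ := hT.bdd
  refine reduceZ hN (k + 1 + 1) T B hB ?_ F hF hG ε hε
  clear hε ε hG hF F
  intro F hF hG hF1 ε hε hε1
  exact step_all (k + 1) (by omega) k T hT B hB hTB hN
    (fun S hS Ψ hΨ hΨG ε' hε' => ih (SqG A hN.anti hN.comm hN.A0)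
      (sqA A hN.anti hN.comm hN.A0) (sqΓ A hN.anti hN.comm hN.A0 Γ) (sqβ β)
      (sqπ A hN.anti hN.comm hN.A0 π) (sqe A hN.anti hN.comm hN.A0 e) (ns_sq hN) S hS Ψ hΨ hΨG
      ε' hε') F hF hG hF1 ε hε hε1

theorem eqz_all (k : ℕ) : EQZ k := by
  induction k with
  | zero => exact eqz_zero
  | succ k ih => exact eqz_step k ih

end Pool.Agent.Lib.MP_663568_nt.NC
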