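import Mathlib
import Pool.Agent.Lib.NC62.N3
import Pool.Agent.Lib.MP_663568_tw.V04
import Pool.Agent.Lib.MP_663568_t3.TCorr

/-!
# Correlations of two twisted nilsequences whose slopes have no small relations modulo one
-/

set_option autoImplicit false
open Finset

namespace Pool.Agent.Lib.MP_663568_nt.NC

open Katai Tw Fib Nul T3 E

/-- The distance to the integers of a combination depends on the fractional parts only. -/
lemma nd_fract_comb {β : Type} [Fintype β] (k : β → ℤ) (u : β → ℝ) :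
    nd (∑ j, (k j : ℝ) * Int.fract (u j)) = nd (∑ j, (k j : ℝ) * u j) := by
  have h1 : ∑ j, (k j : ℝ) * Int.fract (u j) =
      ∑ j, (k j : ℝ) * u j - ((∑ j, k j * ⌊u j⌋ : ℤ) : ℝ) := by
    push_cast
    rw [← sum_sub_distrib]
    refine sum_congr rfl fun j _ => ?_
    have := Int.floor_add_fract (u j)
    have h2 : Int.fract (u j) = u j - ⌊u j⌋ := by linarith
    rw [h2]
    ring
  rw [h1, nd_sub_int]

variable {G : Type} [Group G] [TopologicalSpace G] [IsTopologicalGroup G] {A : ℕ → Subgroup G}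
  {Γ : Subgroup G}
  {β : ℕ → Type} [∀ s, Fintype (β s)] [∀ s, DecidableEq (β s)]
  {π : (s : ℕ) → G → β s → ℝ} {e : (s : ℕ) → β s → ℝ → G}

/-- Correlations of the dilates of two twisted nilsequences. -/
theorem corr_nz (hN : NS A Γ π e) (s : ℕ) (T : Set (ℕ → ℂ)) (hT : Tame s T)
    (F : G → ℂ) (hF : LevN A Γ e (s + 1) F) (hG : GoodN e (s + 1) F) (ε : ℝ) (hε : 0 < ε) :
    ∃ K : ℕ, ∀ κ : ℝ, 0 < κ → ∃ L₀ : ℕ, ∀ L : ℕ, L₀ ≤ L → ∀ (g g' x x' : G) (p q j : ℕ),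
      ∀ t ∈ T, ∀ t' ∈ T, SepV K κ (π 1 (g ^ p)) (π 1 (g' ^ q)) →
      ‖∑ l ∈ Icc 1 L, (F (g ^ (p * (j + l)) * x) * t (p * (j + l))) *
        (starRingEnd ℂ) (F (g' ^ (q * (j + l)) * x') * t' (q * (j + l)))‖ ≤ ε * L := by
  classical
  obtain ⟨hF1, hG1⟩ := lev_pr (s + 1) F hF hG
  obtain ⟨K, hK⟩ := eqz_all s (G × G) (prA A) (Γ.prod Γ) (prβ β) (prπ π) (pre e)
    (ns_prod hN) (pairT T) (pairT_tame hT) _ hF1 hG1 ε hε
  refine ⟨K, fun κ hκ => ?_⟩
  have h1 : ∀ θ : prβ β 1 → ℝ, ∃ ρ : ℝ, 0 < ρ ∧ ∃ L₀ : ℕ, θ ∈ farSet (prβ β 1) K κ 1 →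
      ∀ L : ℕ, L₀ ≤ L → ∀ g x : G × G, NearZ ρ (prπ π 1 g) θ → ∀ τ ∈ pairT T,
        ‖∑ l ∈ Icc 1 L, (fun y : G × G => F y.1 * (starRingEnd ℂ) (F y.2)) (g ^ l * x) *
          τ l‖ ≤ ε * L := by
    intro θ
    by_cases h : θ ∈ farSet (prβ β 1) K κ 1
    · obtain ⟨ρ, hρ, L₀, hL⟩ := hK θ (nr_of_far hκ h)
      exact ⟨ρ, hρ, L₀, fun _ => hL⟩
    · exact ⟨1, one_pos, 0, fun h' => absurd h' h⟩
  choose ρ hρ L₀ hL using h1
  obtain ⟨c, hc, hcov⟩ := (isCompact_farSet (prβ β 1) K κ 1).elim_nhds_subcover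
    (fun θ => Metric.ball θ (ρ θ)) (fun θ _ => Metric.ball_mem_nhds θ (hρ θ))
  refine ⟨c.sup L₀, fun L hLt g g' x x' p q j t ht t' ht' hsep => ?_⟩
  set u : prβ β 1 → ℝ := prπ π 1 (g ^ p, g' ^ q) with hu
  have hmem : (fun i => Int.fract (u i)) ∈ farSet (prβ β 1) K κ 1 := by
    constructor
    · intro i
      rw [abs_of_nonneg (Int.fract_nonneg _)]
      exact (Int.fract_lt_one _).le
    · intro k hk hkK
      rw [nd_fract_comb]
      have h2 : ∑ i, (k i : ℝ) * u i =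
          ∑ i, (k (Sum.inl i) : ℝ) * π 1 (g ^ p) i + ∑ i, (k (Sum.inr i) : ℝ) * π 1 (g' ^ q) i :=
        Fintype.sum_sum_type _
      rw [h2]
      refine hsep (fun i => k (Sum.inl i)) (fun i => k (Sum.inr i)) ?_ (fun i => hkK _)
        (fun i => hkK _)
      by_contra hcon
      push Not at hcon
      apply hk
      funext i
      rcases i with i | i
      · exact congrFun hcon.1 i
      · exact congrFun hcon.2 i
  obtain ⟨θ, hθc, hθ⟩ := Set.mem_iUnion₂.1 (hcov hmem)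
  have hball : ∀ i, |u i - (θ i + (⌊u i⌋ : ℝ))| < ρ θ := by
    intro i
    have h3 := (dist_pi_lt_iff (hρ θ)).1 (Metric.mem_ball.1 hθ) i
    rw [Real.dist_eq] at h3
    have h4 := Int.floor_add_fract (u i)
    have h5 : u i - (θ i + (⌊u i⌋ : ℝ)) = Int.fract (u i) - θ i := by linarith
    rw [h5]
    exact h3
  refine corr_of_locT (π := π) T F p q (fun i => θ i + (⌊u i⌋ : ℝ)) (ρ θ) ε L ?_ g g' ?_ ?_
    x x' j t t' ht ht'
  · intro g₁ x₁ hg₁ τ hτ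
    refine hL θ (hc θ hθc) L ((Finset.le_sup hθc).trans hLt) g₁ x₁ ?_ τ hτ
    intro i
    refine ⟨⌊u i⌋, ?_⟩
    have h6 := hg₁ i
    rwa [← sub_sub] at h6
  · exact fun i => hball (Sum.inl i)
  · exact fun i => hball (Sum.inr i)

end Pool.Agent.Lib.MP_663568_nt.NC
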