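import Mathlib
import Pool.Agent.Lib.NC62.N4
import Pool.Agent.Lib.MP_663568_tw.W05
import Pool.Agent.Lib.MP_663568_t3.TSingle
import Pool.Agent.Lib.MP_663568_t3.TChar

/-!
# Single windows, for slopes without small relations modulo one
-/

set_option autoImplicit false
open Finset

namespace Pool.Agent.Lib.MP_663568_nt.NC

open Katai Tw Fib Nul T3 E

section

variable {β : Type} [Fintype β] [DecidableEq β]

/-- A uniform distance from the relations on a compact set. -/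
lemma far_unif (K : ℕ) (C : Set (β → ℝ)) (hC : IsCompact C) (hn : ∀ c ∈ C, NR K c) :
    ∃ κ : ℝ, 0 < κ ∧ ∀ c ∈ C, ∀ k : β → ℤ, k ≠ 0 → (∀ j, |k j| ≤ (K : ℤ)) →
      κ ≤ nd (∑ j, (k j : ℝ) * c j) := by
  classical
  have h1 : ∀ k : β → ℤ, ∃ κ : ℝ, 0 < κ ∧ (k ≠ 0 → (∀ j, |k j| ≤ (K : ℤ)) → ∀ c ∈ C,
      κ ≤ nd (∑ j, (k j : ℝ) * c j)) := by
    intro k
    by_cases hk : k ≠ 0 ∧ (∀ j, |k j| ≤ (K : ℤ)) ∧ C.Nonempty
    · obtain ⟨hk0, hkK, hCn⟩ := hk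
      have hcont : Continuous fun c : β → ℝ => nd (∑ j, (k j : ℝ) * c j) :=
        continuous_nd.comp (continuous_finsetSum _ fun j _ =>
          continuous_const.mul (continuous_apply j))
      obtain ⟨c₀, hc₀, hmin⟩ := hC.exists_isMinOn hCn hcont.continuousOn
      refine ⟨nd (∑ j, (k j : ℝ) * c₀ j), ?_, fun _ _ c hc => hmin hc⟩
      obtain ⟨z, hz⟩ := nd_exists (∑ j, (k j : ℝ) * c₀ j)
      rw [hz, abs_pos, sub_ne_zero]
      exact hn c₀ hc₀ k hk0 hkK z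
    · refine ⟨1, one_pos, fun h2 h3 c hc => ?_⟩
      exact absurd ⟨h2, h3, ⟨c, hc⟩⟩ hk
  choose κ hκ hκ' using h1
  set S : Finset (β → ℤ) := Fintype.piFinset fun _ => Icc (-(K : ℤ)) K with hS
  have h0 : 0 ≤ ∑ k ∈ S, 1 / κ k := sum_nonneg fun k _ => (one_div_pos.2 (hκ k)).le
  refine ⟨1 / (1 + ∑ k ∈ S, 1 / κ k), by positivity, fun c hc k hk hkK => ?_⟩
  have hkS : k ∈ S := by
    rw [hS, Fintype.mem_piFinset]
    intro j
    rw [mem_Icc]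
    exact abs_le.1 (hkK j)
  have h2 : 1 / κ k ≤ ∑ k ∈ S, 1 / κ k :=
    single_le_sum (f := fun k => 1 / κ k) (fun k _ => (one_div_pos.2 (hκ k)).le) hkS
  have h3 : 1 / (1 + ∑ k ∈ S, 1 / κ k) ≤ κ k :=
    (one_div_le (by positivity) (hκ k)).2 (by linarith)
  exact h3.trans (hκ' k hk hkK c hc)

omit [DecidableEq β] in
/-- The distance from the relations near a vector. -/
lemma near_far (K : ℕ) (κ δ : ℝ) (c u : β → ℝ) (k : β → ℤ)
    (hkK : ∀ j, |k j| ≤ (K : ℤ)) (hκ : κ ≤ nd (∑ j, (k j : ℝ) * c j))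
    (hδ : (K : ℝ) * Fintype.card β * δ ≤ κ / 2) (hu : NearZ δ u c) :
    κ / 2 ≤ nd (∑ j, (k j : ℝ) * u j) := by
  choose w hw using hu
  have h1 : nd (∑ j, (k j : ℝ) * c j) ≤ nd (∑ j, (k j : ℝ) * u j - ((∑ j, k j * w j : ℤ) : ℝ)) +
      |∑ j, (k j : ℝ) * c j - (∑ j, (k j : ℝ) * u j - ((∑ j, k j * w j : ℤ) : ℝ))| :=
    nd_le_add_abs _ _
  rw [nd_sub_int] at h1
  have h2 : |∑ j, (k j : ℝ) * c j - (∑ j, (k j : ℝ) * u j - ((∑ j, k j * w j : ℤ) : ℝ))| ≤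
      (K : ℝ) * Fintype.card β * δ := by
    have h3 : ∑ j, (k j : ℝ) * c j - (∑ j, (k j : ℝ) * u j - ((∑ j, k j * w j : ℤ) : ℝ)) =
        -∑ j, (k j : ℝ) * (u j - c j - w j) := by
      push_cast
      rw [← sum_sub_distrib, ← sum_sub_distrib, ← sum_neg_distrib]
      exact sum_congr rfl fun j _ => by ring
    rw [h3, abs_neg]
    calc |∑ j, (k j : ℝ) * (u j - c j - w j)| ≤ ∑ j, |(k j : ℝ) * (u j - c j - w j)| :=
          abs_sum_le_sum_abs _ _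
      _ ≤ ∑ j : β, (K : ℝ) * δ := by
          refine sum_le_sum fun j _ => ?_
          rw [abs_mul]
          have h4 : |(k j : ℝ)| ≤ K := by exact_mod_cast hkK j
          exact mul_le_mul h4 (hw j).le (abs_nonneg _) (Nat.cast_nonneg _)
      _ = (K : ℝ) * Fintype.card β * δ := by simp; ring
  linarith

end

variable {G : Type} [Group G] [TopologicalSpace G] [IsTopologicalGroup G] {A : ℕ → Subgroup G}
  {Γ : Subgroup G}
  {β : ℕ → Type} [∀ s, Fintype (β s)] [∀ s, DecidableEq (β s)]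
  {π : (s : ℕ) → G → β s → ℝ} {e : (s : ℕ) → β s → ℝ → G}

/-- Single windows near the origin. -/
theorem single_nz (hN : NS A Γ π e) (s : ℕ) (T : Set (ℕ → ℂ)) (hT : Tame s T)
    (hT1 : ∀ t ∈ T, ∀ l, ‖t l‖ ≤ 1) (F : G → ℂ) (hF : LevN A Γ e (s + 1) F)
    (hG : GoodN e (s + 1) F) (hF1 : ∀ x, ‖F x‖ ≤ 1) (a : ℕ → ℂ) (ha : ∀ n, ‖a n‖ ≤ 1)
    (hmul : Mult a) (ε : ℝ) (hε : 0 < ε) :
    ∃ K : ℕ, ∀ C : Set (β 1 → ℝ), IsCompact C → (∀ c ∈ C, NR K c) →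
      ∃ δ : ℝ, 0 < δ ∧ ∃ H₁ : ℕ, ∀ g x : G, (∃ c ∈ C, NearZ δ (π 1 g) c) → ∀ t ∈ T,
      ∀ H n : ℕ, H₁ ≤ H → n ≤ H → ws (fun m => F (g ^ m * x) * t m) a n H ≤ ε * H := by
  classical
  obtain ⟨η, hη, hnat⟩ := natural_w a ha hmul (ε / 4) (by positivity)
  obtain ⟨K₀, hK₀⟩ := corr_nz hN s T hT F hF hG η hη
  obtain ⟨P, hP, hnatP⟩ := hnat K₀
  set K : ℕ := 2 * (∑ p ∈ P, p) * K₀ with hK
  refine ⟨K, fun C hC hCn => ?_⟩
  obtain ⟨κ, hκ, hκC⟩ := far_unif K C hC hCn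
  set δ : ℝ := κ / (2 * ((K : ℝ) * Fintype.card (β 1) + 1)) with hδ
  have hKc : 0 ≤ (K : ℝ) * Fintype.card (β 1) := by positivity
  have hδ0 : 0 < δ := by positivity
  have hδK : (K : ℝ) * Fintype.card (β 1) * δ ≤ κ / 2 := by
    have h1 : ((K : ℝ) * Fintype.card (β 1) + 1) * δ = κ / 2 := by
      rw [hδ]; field_simp
    nlinarith
  obtain ⟨L₀, hL₀⟩ := hK₀ (κ / 2) (by positivity)
  obtain ⟨H₀, hH₀, hsum⟩ := hnatP (L₀ + 1) (by omega)
  refine ⟨δ, hδ0, H₀ + ⌈4 * (H₀ : ℝ) / ε⌉₊, fun g x hg t ht H n hH hn => ?_⟩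
  obtain ⟨c, hc, hgc⟩ := hg
  have hb : ∀ m, ‖F (g ^ m * x) * t m‖ ≤ 1 := fun m => by
    rw [norm_mul]
    exact mul_le_one₀ (hF1 _) (norm_nonneg _) (hT1 t ht m)
  refine window_small _ a hb ha ε hε H₀ hH₀ (fun X hX => ?_) H n hH hn
  refine hsum _ hb (fun p hp q hq hpq j => ?_) X hX
  refine hL₀ (L₀ + 1) (by omega) g g x x p q j t ht t ht ?_
  intro k k' hkk hk hk'
  have hple : ∀ p ∈ P, (p : ℤ) ≤ ((∑ p ∈ P, p : ℕ) : ℤ) := fun p hp => by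
    exact_mod_cast single_le_sum (f := fun p : ℕ => p) (fun _ _ => Nat.zero_le _) hp
  set m : β 1 → ℤ := fun j => p * k j + q * k' j with hm
  have hm0 : m ≠ 0 := by
    intro h0
    have hpp := (hP p hp).1
    have hpq' := (hP q hq).1
    have hco : Nat.Coprime p q := (Nat.coprime_primes hpp hpq').2 hpq
    have hk'0 : k' = 0 := by
      funext j
      have h1 : (p : ℤ) * k j + q * k' j = 0 := congrFun h0 j
      have h2 : (p : ℤ) ∣ q * k' j := ⟨- k j, by linarith⟩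
      have h3 : (p : ℤ) ∣ k' j := by
        have hc : IsCoprime (p : ℤ) (q : ℤ) := Nat.isCoprime_iff_coprime.2 hco
        exact hc.dvd_of_dvd_mul_left h2
      have h4 : |k' j| < p := by
        have h5 := hk' j
        have h6 : (K₀ : ℤ) < p := by exact_mod_cast (hP p hp).2
        linarith
      exact Int.eq_zero_of_abs_lt_dvd h3 h4
    have hk0 : k = 0 := by
      funext j
      have h1 : (p : ℤ) * k j + q * k' j = 0 := congrFun h0 j
      rw [hk'0] at h1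
      have h2 : (p : ℤ) * k j = 0 := by simpa using h1
      have h3 : (p : ℤ) ≠ 0 := by exact_mod_cast hpp.ne_zero
      exact (mul_eq_zero.1 h2).resolve_left h3
    rcases hkk with h | h
    · exact h hk0
    · exact h hk'0
  have hmK : ∀ j, |m j| ≤ (K : ℤ) := by
    intro j
    have h1 : |m j| ≤ (p : ℤ) * |k j| + q * |k' j| := by
      rw [hm]
      refine (abs_add_le _ _).trans ?_
      rw [abs_mul, abs_mul, Nat.abs_cast, Nat.abs_cast]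
    have h2 : (p : ℤ) * |k j| ≤ ((∑ p ∈ P, p : ℕ) : ℤ) * K₀ :=
      mul_le_mul (hple p hp) (hk j) (abs_nonneg _) (Nat.cast_nonneg _)
    have h3 : (q : ℤ) * |k' j| ≤ ((∑ p ∈ P, p : ℕ) : ℤ) * K₀ :=
      mul_le_mul (hple q hq) (hk' j) (abs_nonneg _) (Nat.cast_nonneg _)
    have h4 : (K : ℤ) = 2 * ((∑ p ∈ P, p : ℕ) : ℤ) * K₀ := by rw [hK]; push_cast; ring
    rw [h4]
    linarith
  have h5 : ∑ j, (k j : ℝ) * π 1 (g ^ p) j + ∑ j, (k' j : ℝ) * π 1 (g ^ q) j =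
      ∑ j, (m j : ℝ) * π 1 g j := by
    rw [← sum_add_distrib]
    refine sum_congr rfl fun j _ => ?_
    rw [pi_pow hN, pi_pow hN, hm]
    push_cast
    ring
  rw [h5]
  exact near_far K κ δ c (π 1 g) m hmK (hκC c hc m hm0 hmK) hδK hgc

end Pool.Agent.Lib.MP_663568_nt.NC
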