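import Mathlib
import Pool.Agent.Lib.NC62.N5
import Pool.Agent.Lib.MP_663568_t3.MScales

/-!
# The uniform estimate for functions with a nonzero vertical frequency
-/

set_option autoImplicit false
open Finset MeasureTheory

namespace Pool.Agent.Lib.MP_663568_nt.NC

open Katai Tw Fib Nul T3 E

/-- the vectors near the set `C` modulo one -/
def NearC {J : Type} (ρ : ℝ) (C : Set (J → ℝ)) (u : J → ℝ) : Prop := ∃ c ∈ C, NearZ ρ u c

variable {G : Type} [Group G] [TopologicalSpace G] [IsTopologicalGroup G] {A : ℕ → Subgroup G}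
  {Γ : Subgroup G}
  {β : ℕ → Type} [∀ s, Fintype (β s)] [∀ s, DecidableEq (β s)]
  {π : (s : ℕ) → G → β s → ℝ} {e : (s : ℕ) → β s → ℝ → G}

/-- The estimate for one function of level `s + 1`, uniformly near a closed set of slopes. -/
theorem fam_eps (hN : NS A Γ π e) (s : ℕ) (T : Set (ℕ → ℂ)) (hT : Tame s T)
    (hT1 : ∀ t ∈ T, ∀ l, ‖t l‖ ≤ 1) (F : G → ℂ) (hF : LevN A Γ e (s + 1) F)
    (hG : GoodN e (s + 1) F) (hF1 : ∀ x, ‖F x‖ ≤ 1) (a : ℕ → ℂ) (ha : ∀ n, ‖a n‖ ≤ 1)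
    (hmul : Mult a) (ε : ℝ) (hε : 0 < ε) :
    ∃ K : ℕ, ∃ v : ℝ, 0 < v ∧ ∀ C : Set (β 1 → ℝ), IsCompact C →
      (∀ k ∈ kbox β K, (∀ c ∈ C, Irrational (∑ j, (k j : ℝ) * c j)) ∧
        (volume ((fun x : ℝ => (x : UnitAddCircle)) ''
          ((fun c : β 1 → ℝ => ∑ j, (k j : ℝ) * c j) '' C))).toReal < v) →
      ∃ ρ : ℝ, 0 < ρ ∧ ∃ H₀ : ℕ, ∀ N H : ℕ, H₀ ≤ H → H ≤ N →
        ∑ n ∈ Icc 1 N, (1 / (n : ℝ)) * ⨆ i : {i : G × G × ↥T // NearC ρ C (π 1 i.1)},
          ws (fun m => F (i.1.1 ^ m * i.1.2.1) * (i.1.2.2 : ℕ → ℂ) m) a n H ≤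
            ε * H * Real.log N := by
  classical
  obtain ⟨K₀, hK₀⟩ := corr_nz hN s T hT F hF hG ((ε / 10 / 16) ^ 2 / 2) (by positivity)
  obtain ⟨K₁, hK₁⟩ := single_nz hN s T hT hT1 F hF hG hF1 a ha hmul (ε / 10) (by positivity)
  set K : ℕ := max (max K₀ K₁) 1 with hK
  have hK1 : 1 ≤ K := le_max_right _ _
  have hKK : K₀ ≤ K := (le_max_left _ _).trans (le_max_left _ _)
  have hKK₁ : K₁ ≤ K := (le_max_right _ _).trans (le_max_left _ _)
  set J : Type := {k // k ∈ kbox β K} with hJ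
  set cst : ℝ := ε / 10 / 4 / (8 * (MM (ε / 10) : ℕ)) with hcst
  have hMM : (0 : ℝ) < (MM (ε / 10) : ℕ) := by
    have : 0 < MM (ε / 10) := by rw [MM]; omega
    exact_mod_cast this
  have hcst0 : 0 < cst := by positivity
  set n : ℝ := (Fintype.card J : ℝ) + 1 with hn
  have hn0 : 0 < n := by positivity
  refine ⟨K, cst / n ^ 2, by positivity, fun C hC hCk => ?_⟩
  have hCirr : ∀ k ∈ kbox β K, ∀ c ∈ C, Irrational (∑ j, (k j : ℝ) * c j) := fun k hk =>
    (hCk k hk).1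
  have hvol := fun k hk => (hCk k hk).2
  have hNR : ∀ K' : ℕ, K' ≤ K → ∀ c ∈ C, NR K' c := by
    intro K' hK' c hc k hk hkK z
    refine (hCirr k ?_ c hc).ne_int z
    rw [mem_kbox]
    exact ⟨fun j => (hkK j).trans (by exact_mod_cast hK'), hk⟩
  -- the family
  set F' : G × G × ↥T × (β 1 → ℤ) → ℕ → ℂ := fun i m =>
    F (i.1 ^ m * i.2.1) * (i.2.2.1 : ℕ → ℂ) m with hF'
  have hF'1 : ∀ i m, ‖F' i m‖ ≤ 1 := by
    intro i m
    simp only [hF']
    rw [norm_mul]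
    exact mul_le_one₀ (hF1 _) (norm_nonneg _) (hT1 _ i.2.2.1.2 m)
  set ld : G × G × ↥T × (β 1 → ℤ) → J → ℝ := fun i k =>
    ∑ j, (k.1 j : ℝ) * (π 1 i.1 j - i.2.2.2 j) with hld
  set Φ : (β 1 → ℝ) → J → ℝ := fun c k => ∑ j, (k.1 j : ℝ) * c j with hΦ
  have hΦc : Continuous Φ := continuous_pi fun k => continuous_finsetSum _ fun j _ =>
    continuous_const.mul (continuous_apply j)
  set Ks : Set (J → ℝ) := Φ '' C with hKs
  have hKsc : IsCompact Ks := hC.image hΦc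
  have hcoord : ∀ b : J, (fun α : J → ℝ => α b) '' Ks =
      (fun c : β 1 → ℝ => ∑ j, (b.1 j : ℝ) * c j) '' C := by
    intro b
    rw [hKs, Set.image_image]
  -- volume
  have hvolU : ((Fintype.card J : ℝ) + 1) * (volume ((fun x : ℝ => (x : UnitAddCircle)) ''
      (⋃ b, (fun α : J → ℝ => α b) '' Ks))).toReal < cst := by
    have h1 : (volume ((fun x : ℝ => (x : UnitAddCircle)) ''
      (⋃ b, (fun α : J → ℝ => α b) '' Ks))).toReal ≤ Fintype.card J * (cst / n ^ 2) := by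
      rw [Set.image_iUnion]
      have h2 : volume (⋃ b, (fun x : ℝ => (x : UnitAddCircle)) '' ((fun α : J → ℝ => α b) '' Ks)) ≤
          ∑ b : J, volume ((fun x : ℝ => (x : UnitAddCircle)) ''
            ((fun α : J → ℝ => α b) '' Ks)) := measure_iUnion_fintype_le _ _
      have h3 : (∑ b : J, volume ((fun x : ℝ => (x : UnitAddCircle)) ''
            ((fun α : J → ℝ => α b) '' Ks))) ≠ ⊤ :=
        (ENNReal.sum_lt_top.2 fun b _ => measure_lt_top _ _).ne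
      refine (ENNReal.toReal_mono h3 h2).trans ?_
      rw [ENNReal.toReal_sum fun b _ => (measure_lt_top _ _).ne]
      calc _ ≤ ∑ b : J, cst / n ^ 2 := by
            refine sum_le_sum fun b _ => ?_
            rw [hcoord]
            exact (hvol b.1 b.2).le
        _ = _ := by simp
    calc ((Fintype.card J : ℝ) + 1) * _ ≤ n * (Fintype.card J * (cst / n ^ 2)) :=
          mul_le_mul_of_nonneg_left h1 hn0.le
      _ < n * (n * (cst / n ^ 2)) := by
          apply mul_lt_mul_of_pos_left _ hn0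
          apply mul_lt_mul_of_pos_right _ (by positivity)
          rw [hn]; linarith
      _ = cst := by field_simp
  -- the slope of a power
  have hslope : ∀ (i : G × G × ↥T × (β 1 → ℤ)) (p : ℕ) (k : J),
      (p : ℝ) * ld i k = ∑ j, (k.1 j : ℝ) * π 1 (i.1 ^ p) j -
        ((∑ j, p * k.1 j * i.2.2.2 j : ℤ) : ℝ) := by
    intro i p k
    simp only [hld]
    rw [mul_sum]
    push_cast
    rw [← sum_sub_distrib]
    refine sum_congr rfl fun j _ => ?_
    rw [pi_pow hN]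
    ring
  -- correlations
  have hcorr : CorrJ F' ld (AAJ ld Ks 1) ((ε / 10 / 16) ^ 2 / 2) := by
    intro κ hκ Dm
    obtain ⟨L₀, hL₀⟩ := hK₀ κ hκ
    refine ⟨L₀, fun L hL i _ i' _ p q j _ _ hsep => ?_⟩
    refine hL₀ L hL i.1 i'.1 i.2.1 i'.2.1 p q j _ i.2.2.1.2 _ i'.2.2.1.2 ?_
    intro k k' hkk hk hk'
    obtain ⟨s1, s2, s3⟩ := hsep
    have hkb : ∀ k : β 1 → ℤ, k ≠ 0 → (∀ j, |k j| ≤ (K₀ : ℤ)) → k ∈ kbox β K := by
      intro k h1 h2
      rw [mem_kbox]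
      exact ⟨fun j => (h2 j).trans (by exact_mod_cast hKK), h1⟩
    by_cases h0 : k = 0
    · have h0' : k' ≠ 0 := by
        rcases hkk with h | h
        · exact absurd h0 h
        · exact h
      have h2 : κ ≤ nd ((q : ℝ) * ld i' ⟨k', hkb k' h0' hk'⟩) := s2 _
      rw [hslope, nd_sub_int] at h2
      have e3 : ∑ j, (k j : ℝ) * π 1 (i.1 ^ p) j = 0 := by rw [h0]; simp
      rw [e3, zero_add]
      exact h2
    · by_cases h0' : k' = 0
      · have h2 : κ ≤ nd ((p : ℝ) * ld i ⟨k, hkb k h0 hk⟩) := s1 _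
        rw [hslope, nd_sub_int] at h2
        have e3 : ∑ j, (k' j : ℝ) * π 1 (i'.1 ^ q) j = 0 := by rw [h0']; simp
        rw [e3, add_zero]
        exact h2
      · have hneg : -k' ∈ kbox β K := hkb (-k') (neg_ne_zero.2 h0') (fun j => by
          rw [Pi.neg_apply, abs_neg]; exact hk' j)
        have e4 : (p : ℝ) * ld i ⟨k, hkb k h0 hk⟩ - (q : ℝ) * ld i' ⟨-k', hneg⟩ =
            (∑ j, (k j : ℝ) * π 1 (i.1 ^ p) j + ∑ j, (k' j : ℝ) * π 1 (i'.1 ^ q) j) -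
              ((∑ j, p * k j * i.2.2.2 j + ∑ j, q * k' j * i'.2.2.2 j : ℤ) : ℝ) := by
          rw [hslope, hslope]
          push_cast
          simp only [Pi.neg_apply, Int.cast_neg, neg_mul, mul_neg, sum_neg_distrib]
          ring
        have h3 : κ ≤ nd ((p : ℝ) * ld i ⟨k, hkb k h0 hk⟩ - (q : ℝ) * ld i' ⟨-k', hneg⟩) := s3 _ _
        rw [e4, nd_sub_int] at h3
        exact h3
  -- single windows
  have hsmem : ∀ j : β 1, (Pi.single j 1 : β 1 → ℤ) ∈ kbox β K := by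
    intro j
    rw [mem_kbox]
    constructor
    · intro j'
      by_cases h : j' = j
      · subst h; rw [Pi.single_eq_same]; simpa using hK1
      · rw [Pi.single_eq_of_ne h]; simp
    · intro h
      have := congrFun h j
      rw [Pi.single_eq_same] at this
      simp at this
  have hcomb : ∀ (j : β 1) (u : β 1 → ℝ),
      ∑ j', ((Pi.single j 1 : β 1 → ℤ) j' : ℝ) * u j' = u j := by
    intro j u
    rw [Finset.sum_eq_single j (fun i _ hi => by rw [Pi.single_eq_of_ne hi]; simp)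
      (fun h => absurd (mem_univ j) h), Pi.single_eq_same]
    simp
  obtain ⟨δ₀, hδ₀, H₁, hH₁⟩ := hK₁ C hC (hNR K₁ hKK₁)
  have hsingle : ∃ δ : ℝ, 0 < δ ∧ ∃ H₁ : ℕ, ∀ i ∈ AAJ ld Ks δ, ∀ H n : ℕ, H₁ ≤ H → n ≤ H →
      ws (F' i) a n H ≤ ε / 10 * H := by
    refine ⟨δ₀, hδ₀, H₁, ?_⟩
    rintro i ⟨_, ⟨c, hc, rfl⟩, hic⟩ H n hH hn
    refine hH₁ i.1 i.2.1 ⟨c, hc, fun j => ⟨i.2.2.2 j, ?_⟩⟩ _ i.2.2.1.2 H n hH hn
    have h1 := hic ⟨_, hsmem j⟩
    simp only [hld, hΦ] at h1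
    rw [hcomb j (fun j => π 1 i.1 j - i.2.2.2 j), hcomb j c] at h1
    rwa [sub_right_comm] at h1
  obtain ⟨δ, hδ, H₀, hmain⟩ := scales_vec F' ld a hF'1 ha hmul ε hε Ks hKsc (by
      rintro _ ⟨c, hc, rfl⟩ b
      exact hCirr b.1 b.2 c hc) hvolU hcorr hsingle
  -- the neighbourhood
  set E : ℝ := (K : ℝ) * Fintype.card (β 1) + 1 with hE
  have hE0 : 0 < E := by positivity
  set δ' : ℝ := δ / E with hδ'
  have hδ'0 : 0 < δ' := by positivity
  refine ⟨δ', hδ'0, H₀, fun M H h1 h2 => ?_⟩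
  refine le_trans (sum_le_sum fun m _ => ?_) (hmain M H h1 h2)
  refine mul_le_mul_of_nonneg_left ?_ (by positivity)
  refine Real.iSup_le ?_ (GG_nonneg _ _ _ _)
  rintro ⟨⟨g, x, t⟩, c, hc, hgc⟩
  have hgc' := hgc
  choose w hw using hgc'
  have hmem : ((g, x, t, w) : G × G × ↥T × (β 1 → ℤ)) ∈ AAJ ld Ks δ := by
    refine ⟨Φ c, ⟨c, hc, rfl⟩, fun b => ?_⟩
    simp only [hld, hΦ]
    rw [← sum_sub_distrib]
    have hb := (mem_kbox.1 b.2).1
    calc |∑ j, ((b.1 j : ℝ) * (π 1 g j - w j) - (b.1 j : ℝ) * c j)|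
        ≤ ∑ j, |(b.1 j : ℝ) * (π 1 g j - w j) - (b.1 j : ℝ) * c j| := abs_sum_le_sum_abs _ _
      _ ≤ ∑ j : β 1, (K : ℝ) * δ' := by
          refine sum_le_sum fun j _ => ?_
          rw [← mul_sub, abs_mul]
          have h3 : |(b.1 j : ℝ)| ≤ K := by exact_mod_cast hb j
          have h4 : π 1 g j - w j - c j = π 1 g j - c j - w j := by ring
          rw [h4]
          exact mul_le_mul h3 (hw j).le (abs_nonneg _) (Nat.cast_nonneg _)
      _ = (K : ℝ) * Fintype.card (β 1) * δ' := by simp; ring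
      _ < E * δ' := by
          apply mul_lt_mul_of_pos_right _ hδ'0
          rw [hE]; linarith
      _ = δ := by rw [hδ']; field_simp
  exact le_GG (FAJ F' ld Ks δ) a (fun i m => hF'1 _ _) ha H m ⟨_, hmem⟩

end Pool.Agent.Lib.MP_663568_nt.NC
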