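import Mathlib
import Pool.Agent.Lib.NC62.N6
import Pool.Agent.Lib.MP_663568_q.R08

/-!
# Normalization, finite sums and approximation
-/

set_option autoImplicit false
open Finset MeasureTheory

namespace Pool.Agent.Lib.MP_663568_nt.NC

open Katai Tw Fib Nul T3 E Q

section

variable {J : Type} [Fintype J]

/-- All the combinations `k ⬝ c`, `0 < |k| ≤ K`, `c ∈ C`, are irrational and for each of these `k`
their set has measure less than `v` modulo one. -/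
def CondZ (K : ℕ) (v : ℝ) (C : Set (J → ℝ)) : Prop :=
  ∀ k : J → ℤ, k ≠ 0 → (∀ j, |k j| ≤ (K : ℤ)) →
    (∀ c ∈ C, Irrational (∑ j, (k j : ℝ) * c j)) ∧
      (volume ((fun x : ℝ => (x : UnitAddCircle)) ''
        ((fun c : J → ℝ => ∑ j, (k j : ℝ) * c j) '' C))).toReal < v

lemma CondZ.mono {K K' : ℕ} {v v' : ℝ} {C : Set (J → ℝ)} (h : CondZ K v C) (hK : K' ≤ K)
    (hv : v ≤ v') : CondZ K' v' C := fun k hk hkK =>
  ⟨(h k hk fun j => (hkK j).trans (by exact_mod_cast hK)).1,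
    (h k hk fun j => (hkK j).trans (by exact_mod_cast hK)).2.trans_le hv⟩

end

section

variable {G : Type} [Group G] {J : Type} [Fintype J]

/-- the indices -/
abbrev IdZ (p : G → J → ℝ) (C : Set (J → ℝ)) (ρ : ℝ) (T : Set (ℕ → ℂ)) : Type :=
  {i : G × G × ↥T // NearC ρ C (p i.1)}

/-- the family of the twisted orbits with slopes near `C` -/
noncomputable def famZ (p : G → J → ℝ) (C : Set (J → ℝ)) (ρ : ℝ) (T : Set (ℕ → ℂ)) (F : G → ℂ) :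
    IdZ p C ρ T → ℕ → ℂ := fun i m => F (i.1.1 ^ m * i.1.2.1) * (i.1.2.2 : ℕ → ℂ) m

/-- The estimate for the set `C`. -/
def UZ (T : Set (ℕ → ℂ)) (p : G → J → ℝ) (F : G → ℂ) (a : ℕ → ℂ) (C : Set (J → ℝ)) (ε : ℝ) :
    Prop := ∃ ρ : ℝ, 0 < ρ ∧ ∃ H₀ : ℕ, ∀ N H : ℕ, H₀ ≤ H → H ≤ N →
  ∑ n ∈ Icc 1 N, (1 / (n : ℝ)) * GG (famZ p C ρ T F) a H n ≤ ε * H * Real.log N

/-- The estimate for all sets which satisfy `CondZ`. -/
def MZ (T : Set (ℕ → ℂ)) (p : G → J → ℝ) (F : G → ℂ) (a : ℕ → ℂ) (ε : ℝ) : Prop :=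
  ∃ K : ℕ, ∃ v : ℝ, 0 < v ∧ ∀ C : Set (J → ℝ), IsCompact C → CondZ K v C → UZ T p F a C ε

omit [Fintype J] in
lemma famZ_bdd {p : G → J → ℝ} {C : Set (J → ℝ)} {ρ : ℝ} {T : Set (ℕ → ℂ)} {F : G → ℂ}
    {B B' : ℝ} (hB : ∀ x, ‖F x‖ ≤ B) (hT : ∀ t ∈ T, ∀ l, ‖t l‖ ≤ B') {a : ℕ → ℂ}
    (ha : ∀ n, ‖a n‖ ≤ 1) (H n : ℕ) : BddAbove (Set.range fun i =>
      ‖∑ h ∈ Icc 1 H, famZ p C ρ T F i (n + h) * a (n + h)‖) := by
  have hB0 : 0 ≤ B := (norm_nonneg _).trans (hB 1)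
  refine ⟨H * (B * B'), ?_⟩
  rintro _ ⟨i, rfl⟩
  have hB'0 : 0 ≤ B' := (norm_nonneg _).trans (hT _ i.1.2.2.2 0)
  calc _ ≤ ∑ h ∈ Icc 1 H, ‖famZ p C ρ T F i (n + h) * a (n + h)‖ := norm_sum_le _ _
    _ ≤ ∑ _h ∈ Icc 1 H, B * B' := by
        refine sum_le_sum fun h _ => ?_
        rw [norm_mul, famZ, norm_mul]
        calc _ ≤ B * B' * 1 := mul_le_mul (mul_le_mul (hB _) (hT _ i.1.2.2.2 _) (norm_nonneg _)
              hB0) (ha _) (norm_nonneg _) (mul_nonneg hB0 hB'0)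
          _ = B * B' := mul_one _
    _ = H * (B * B') := by simp

omit [Fintype J] in
lemma le_GGZ {p : G → J → ℝ} {C : Set (J → ℝ)} {ρ : ℝ} {T : Set (ℕ → ℂ)} {F : G → ℂ}
    (hF : ∃ B : ℝ, ∀ x, ‖F x‖ ≤ B) (hT : BddF T) {a : ℕ → ℂ} (ha : ∀ n, ‖a n‖ ≤ 1) (H n : ℕ)
    (i : IdZ p C ρ T) :
    ‖∑ h ∈ Icc 1 H, famZ p C ρ T F i (n + h) * a (n + h)‖ ≤ GG (famZ p C ρ T F) a H n := by
  obtain ⟨B, hB⟩ := hF
  obtain ⟨B', _, hB'⟩ := hT
  exact le_ciSup (f := fun i => ‖∑ h ∈ Icc 1 H, famZ p C ρ T F i (n + h) * a (n + h)‖)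
    (famZ_bdd hB hB' ha H n) i

/-- a smaller neighbourhood -/
lemma GGZ_mono {p : G → J → ℝ} {C : Set (J → ℝ)} {ρ ρ' : ℝ} (hρ : ρ ≤ ρ') {T : Set (ℕ → ℂ)}
    {F : G → ℂ} (hF : ∃ B : ℝ, ∀ x, ‖F x‖ ≤ B) (hT : BddF T) {a : ℕ → ℂ} (ha : ∀ n, ‖a n‖ ≤ 1)
    (H n : ℕ) : GG (famZ p C ρ T F) a H n ≤ GG (famZ p C ρ' T F) a H n := by
  refine Real.iSup_le (fun i => ?_) (GG_nonneg _ _ _ _)
  obtain ⟨i, c, hc, hi⟩ := i
  have h1 : NearC ρ' C (p i.1) := ⟨c, hc, fun j => by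
    obtain ⟨z, hz⟩ := hi j
    exact ⟨z, hz.trans_le hρ⟩⟩
  exact le_GGZ (ρ := ρ') hF hT ha H n ⟨i, h1⟩

/-- from a normalized family -/
lemma mz_scale {T T' : Set (ℕ → ℂ)} {p : G → J → ℝ} {F F' : G → ℂ} {a : ℕ → ℂ}
    (ha : ∀ n, ‖a n‖ ≤ 1) {c : ℝ} (hc : 0 < c) (hF' : ∃ B : ℝ, ∀ x, ‖F' x‖ ≤ B) (hT' : BddF T')
    (h : ∀ t ∈ T, ∃ t' ∈ T', ∀ x l, F x * t l = c * (F' x * t' l)) {ε : ℝ}
    (h1 : MZ T' p F' a (ε / c)) : MZ T p F a ε := by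
  obtain ⟨K, v, hv, hm⟩ := h1
  refine ⟨K, v, hv, fun C hC hCC => ?_⟩
  obtain ⟨ρ, hρ, H₀, hm⟩ := hm C hC hCC
  refine ⟨ρ, hρ, H₀, fun N H hH hHN => ?_⟩
  have h2 := hm N H hH hHN
  have h3 : ∀ n, GG (famZ p C ρ T F) a H n ≤ c * GG (famZ p C ρ T' F') a H n := by
    intro n
    refine Real.iSup_le (fun i => ?_) (mul_nonneg hc.le (GG_nonneg _ _ _ _))
    obtain ⟨⟨g, x, t⟩, hi⟩ := i
    obtain ⟨t', ht', he⟩ := h t.1 t.2
    have h4 := le_GGZ (p := p) (C := C) (ρ := ρ) hF' hT' ha H n ⟨(g, x, ⟨t', ht'⟩), hi⟩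
    have h5 : ∑ h ∈ Icc 1 H, famZ p C ρ T F ⟨(g, x, t), hi⟩ (n + h) * a (n + h) =
        (c : ℂ) * ∑ h ∈ Icc 1 H, famZ p C ρ T' F' ⟨(g, x, ⟨t', ht'⟩), hi⟩ (n + h) * a (n + h) := by
      rw [mul_sum]
      refine sum_congr rfl fun h _ => ?_
      simp only [famZ]
      rw [he]
      ring
    rw [h5, norm_mul, Complex.norm_real, Real.norm_eq_abs, abs_of_pos hc]
    exact mul_le_mul_of_nonneg_left h4 hc.le
  calc _ ≤ ∑ n ∈ Icc 1 N, (1 / (n : ℝ)) * (c * GG (famZ p C ρ T' F') a H n) :=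
        sum_le_sum fun n _ => mul_le_mul_of_nonneg_left (h3 n) (by positivity)
    _ = c * ∑ n ∈ Icc 1 N, (1 / (n : ℝ)) * GG (famZ p C ρ T' F') a H n := by
        rw [mul_sum]
        exact sum_congr rfl fun n _ => by ring
    _ ≤ c * (ε / c * H * Real.log N) := mul_le_mul_of_nonneg_left h2 hc.le
    _ = ε * H * Real.log N := by field_simp

lemma mz_zero (T : Set (ℕ → ℂ)) (p : G → J → ℝ) (F : G → ℂ) (a : ℕ → ℂ)
    (hF : ∀ x, F x = 0) (ε : ℝ) (hε : 0 < ε) : MZ T p F a ε := by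
  refine ⟨0, 1, one_pos, fun C _ _ => ⟨1, one_pos, 0, fun N H _ _ => ?_⟩⟩
  have hGG : ∀ n, GG (famZ p C 1 T F) a H n = 0 := by
    intro n
    refine le_antisymm (Real.iSup_le (fun i => ?_) le_rfl) (GG_nonneg _ _ _ _)
    have : ∑ h ∈ Icc 1 H, famZ p C 1 T F i (n + h) * a (n + h) = 0 :=
      sum_eq_zero fun h _ => by simp only [famZ]; rw [hF, zero_mul, zero_mul]
    rw [this, norm_zero]
  simp only [hGG, mul_zero, sum_const_zero]
  have h5 : 0 ≤ (H : ℝ) * Real.log N := mul_nonneg (by positivity) (Real.log_natCast_nonneg N)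
  calc (0 : ℝ) ≤ ε * (H * Real.log N) := mul_nonneg hε.le h5
    _ = _ := by ring

/-- from a pointwise bound for the suprema -/
private theorem log_assemblyZ (ι : Type) [Fintype ι] (g : ι → ℕ → ℝ) (G₀ : ℕ → ℝ) (ε : ℝ)
    (hε : 0 < ε) (M H : ℕ) (hM3 : 3 ≤ M)
    (hH : ∀ i, ∑ n ∈ Icc 1 M, (1 / (n : ℝ)) * g i n ≤
      ε / (2 * (Fintype.card ι + 1)) * H * Real.log M)
    (hpt : ∀ n, G₀ n ≤ ∑ i, g i n + ε / 4 * H) :
    ∑ n ∈ Icc 1 M, (1 / (n : ℝ)) * G₀ n ≤ ε * H * Real.log M := by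
  have hlogM : 1 ≤ Real.log M := by
    rw [Real.le_log_iff_exp_le (by positivity)]
    have h1 : Real.exp 1 < 2.7182818286 := Real.exp_one_lt_d9
    have h2 : (3 : ℝ) ≤ M := by exact_mod_cast hM3
    linarith
  have hH0 : (0 : ℝ) ≤ H := by positivity
  calc _ ≤ ∑ n ∈ Icc 1 M, (1 / (n : ℝ)) * (∑ i, g i n + ε / 4 * H) := by
        refine sum_le_sum fun n _ => ?_
        exact mul_le_mul_of_nonneg_left (hpt n) (by positivity)
    _ = ∑ i, ∑ n ∈ Icc 1 M, (1 / (n : ℝ)) * g i n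
        + (∑ n ∈ Icc 1 M, (1 / (n : ℝ))) * (ε / 4 * H) := by
        simp only [mul_add, sum_add_distrib]
        congr 1
        · simp only [mul_sum]
          rw [sum_comm]
        · rw [sum_mul]
    _ ≤ ∑ _i : ι, (ε / (2 * (Fintype.card ι + 1)) * H * Real.log M)
        + (1 + Real.log M) * (ε / 4 * H) := by
        apply add_le_add
        · exact sum_le_sum fun i _ => hH i
        · exact mul_le_mul_of_nonneg_right (sum_inv_le_log M) (by positivity)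
    _ = (Fintype.card ι : ℝ) / (Fintype.card ι + 1) * (ε / 2 * H * Real.log M)
        + (1 + Real.log M) * (ε / 4 * H) := by
        rw [sum_const, card_univ, nsmul_eq_mul]
        field_simp
    _ ≤ 1 * (ε / 2 * H * Real.log M) + (Real.log M + Real.log M) * (ε / 4 * H) := by
        apply add_le_add
        · apply mul_le_mul_of_nonneg_right _ (by positivity)
          rw [div_le_one (by positivity)]; linarith
        · apply mul_le_mul_of_nonneg_right _ (by positivity)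
          linarith
    _ = ε * H * Real.log M := by ring

/-- A common choice of the constants. -/
lemma common {ι : Type} [Fintype ι] (v : ι → ℝ) (hv : ∀ i, 0 < v i) :
    ∃ w : ℝ, 0 < w ∧ ∀ i, w ≤ v i := by
  have h0 : 0 ≤ ∑ i, 1 / v i := sum_nonneg fun i _ => (one_div_pos.2 (hv i)).le
  refine ⟨1 / (1 + ∑ i, 1 / v i), by positivity, fun i => ?_⟩
  have h2 : 1 / v i ≤ ∑ i, 1 / v i :=
    single_le_sum (f := fun i => 1 / v i) (fun i _ => (one_div_pos.2 (hv i)).le) (mem_univ i)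
  exact (one_div_le (by positivity) (hv i)).2 (by linarith)

/-- finite sums and approximation, in the function -/
theorem mz_approx (T : Set (ℕ → ℂ)) (hT : BddF T) (B₁ : ℝ) (hB₁ : 0 < B₁)
    (hTB : ∀ t ∈ T, ∀ l, ‖t l‖ ≤ B₁) (p : G → J → ℝ) (F : G → ℂ) (a : ℕ → ℂ)
    (ha : ∀ n, ‖a n‖ ≤ 1) (ε : ℝ) (hε : 0 < ε)
    (ι : Type) [Fintype ι] (Fs : ι → G → ℂ) (hB : ∀ i, ∃ B : ℝ, ∀ x, ‖Fs i x‖ ≤ B)
    (hFs : ∀ i, MZ T p (Fs i) a (ε / (2 * (Fintype.card ι + 1))))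
    (hap : ∀ x, ‖F x - ∑ i, Fs i x‖ ≤ ε / (4 * B₁)) : MZ T p F a ε := by
  choose K v hv hm using hFs
  obtain ⟨w, hw, hwv⟩ := common v hv
  refine ⟨∑ i, K i, w, hw, fun C hC hCC => ?_⟩
  have h1 : ∀ i, UZ T p (Fs i) a C (ε / (2 * (Fintype.card ι + 1))) := fun i =>
    hm i C hC (hCC.mono (single_le_sum (f := fun i => K i) (fun _ _ => Nat.zero_le _)
      (mem_univ i)) (hwv i))
  choose ρ hρ H₀ hmain using h1
  obtain ⟨ρ', hρ', hρ'ρ⟩ := common ρ hρ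
  refine ⟨ρ', hρ', 3 + ∑ i, H₀ i, fun N H hH hHN => ?_⟩
  have hH₀ : ∀ i, H₀ i ≤ H := by
    intro i
    have := single_le_sum (f := H₀) (fun _ _ => Nat.zero_le _) (mem_univ i)
    omega
  refine log_assemblyZ ι (fun i n => GG (famZ p C (ρ i) T (Fs i)) a H n)
    (fun n => GG (famZ p C ρ' T F) a H n) ε hε N H (by omega)
    (fun i => hmain i N H (hH₀ i) hHN) ?_
  intro n
  refine Real.iSup_le ?_ (add_nonneg (sum_nonneg fun _ _ => GG_nonneg _ _ _ _) (by positivity))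
  intro u
  have e1 : ∑ h ∈ Icc 1 H, famZ p C ρ' T F u (n + h) * a (n + h) =
      ∑ i, ∑ h ∈ Icc 1 H, famZ p C ρ' T (Fs i) u (n + h) * a (n + h) +
      ∑ h ∈ Icc 1 H, ((F (u.1.1 ^ (n + h) * u.1.2.1) -
        ∑ i, Fs i (u.1.1 ^ (n + h) * u.1.2.1)) * (u.1.2.2 : ℕ → ℂ) (n + h)) * a (n + h) := by
    rw [sum_comm, ← sum_add_distrib]
    refine sum_congr rfl fun h _ => ?_
    simp only [famZ]
    rw [← sum_mul, ← sum_mul]
    ring
  rw [e1]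
  refine (norm_add_le _ _).trans (add_le_add ?_ ?_)
  · refine (norm_sum_le _ _).trans (sum_le_sum fun i _ => ?_)
    exact (le_GGZ (hB i) hT ha H n u).trans (GGZ_mono (hρ'ρ i) (hB i) hT ha H n)
  · calc _ ≤ ∑ h ∈ Icc 1 H, ‖((F (u.1.1 ^ (n + h) * u.1.2.1) -
        ∑ i, Fs i (u.1.1 ^ (n + h) * u.1.2.1)) * (u.1.2.2 : ℕ → ℂ) (n + h)) * a (n + h)‖ :=
          norm_sum_le _ _
      _ ≤ ∑ _h ∈ Icc 1 H, ε / 4 := by
          refine sum_le_sum fun h _ => ?_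
          rw [norm_mul, norm_mul]
          calc _ ≤ ε / (4 * B₁) * B₁ * 1 := mul_le_mul (mul_le_mul (hap _) (hTB _ u.1.2.2.2 _)
                (norm_nonneg _) (by positivity)) (ha _) (norm_nonneg _) (by positivity)
            _ = ε / 4 := by field_simp
      _ = ε / 4 * H := by simp [mul_comm]

/-- finite sums and approximation, in the twist -/
theorem mz_qtm (k : ℕ) (p : G → J → ℝ) (F : G → ℂ) (a : ℕ → ℂ)
    (ha : ∀ n, ‖a n‖ ≤ 1) (B : ℝ) (hB : ∀ x, ‖F x‖ ≤ B)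
    (hB0 : 0 < B) (h : ∀ S, Tame k S → ∀ ε : ℝ, 0 < ε → MZ S p F a ε)
    (T : Set (ℕ → ℂ)) (hT : QTm k T) (ε : ℝ) (hε : 0 < ε) : MZ T p F a ε := by
  obtain ⟨S, hS, I, hI, hTS⟩ := hT (ε / (4 * B)) (by positivity)
  obtain ⟨K, v, hv, hm⟩ := h S hS (ε / (2 * (Fintype.card I + 1))) (by positivity)
  refine ⟨K, v, hv, fun C hC hCC => ?_⟩
  obtain ⟨ρ, hρ, H₀, hmain⟩ := hm C hC hCC
  refine ⟨ρ, hρ, H₀ + 3, fun N H hH hHN => ?_⟩
  refine log_assemblyZ I (fun _ n => GG (famZ p C ρ S F) a H n)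
    (fun n => GG (famZ p C ρ T F) a H n) ε hε N H (by omega)
    (fun i => hmain N H (by omega) hHN) ?_
  intro n
  refine Real.iSup_le ?_ (add_nonneg (sum_nonneg fun _ _ => GG_nonneg _ _ _ _) (by positivity))
  rintro ⟨⟨g, x, ⟨t, ht⟩⟩, hg⟩
  obtain ⟨c, hc, hcl⟩ := hTS t ht
  have e1 : ∑ h ∈ Icc 1 H, famZ p C ρ T F ⟨(g, x, ⟨t, ht⟩), hg⟩ (n + h) * a (n + h) =
      ∑ i, ∑ h ∈ Icc 1 H, (F (g ^ (n + h) * x) * c i (n + h)) * a (n + h) +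
      ∑ h ∈ Icc 1 H, (F (g ^ (n + h) * x) * (t (n + h) - ∑ i, c i (n + h))) *
        a (n + h) := by
    rw [sum_comm, ← sum_add_distrib]
    refine sum_congr rfl fun h _ => ?_
    simp only [famZ]
    rw [← sum_mul, ← mul_sum]
    ring
  rw [e1]
  refine (norm_add_le _ _).trans (add_le_add ?_ ?_)
  · refine (norm_sum_le _ _).trans (sum_le_sum fun i _ => ?_)
    rcases hc i with h1 | h1
    · exact le_GGZ (p := p) (C := C) (ρ := ρ) ⟨B, hB⟩ hS.bdd ha H n ⟨(g, x, ⟨c i, h1⟩), hg⟩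
    · rw [h1]
      simp only [Pi.zero_apply, mul_zero, zero_mul, sum_const_zero, norm_zero]
      exact GG_nonneg _ _ _ _
  · calc _ ≤ ∑ h ∈ Icc 1 H, ‖(F (g ^ (n + h) * x) * (t (n + h) - ∑ i, c i (n + h))) *
        a (n + h)‖ := norm_sum_le _ _
      _ ≤ ∑ _h ∈ Icc 1 H, ε / 4 := by
          refine sum_le_sum fun h _ => ?_
          rw [norm_mul, norm_mul]
          calc _ ≤ B * (ε / (4 * B)) * 1 := mul_le_mul (mul_le_mul (hB _) (hcl _)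
                (norm_nonneg _) hB0.le) (ha _) (norm_nonneg _) (by positivity)
            _ = ε / 4 := by field_simp
      _ = ε / 4 * H := by simp [mul_comm]

end

section

variable {G : Type} [Group G] [TopologicalSpace G] [IsTopologicalGroup G] {A : ℕ → Subgroup G}
  {Γ : Subgroup G}
  {β : ℕ → Type} [∀ s, Fintype (β s)] [∀ s, DecidableEq (β s)]
  {π : (s : ℕ) → G → β s → ℝ} {e : (s : ℕ) → β s → ℝ → G}

/-- The uniform estimate for functions of level at least `s + 1`, with twists. -/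
theorem char_Z (hN : NS A Γ π e) (s : ℕ) (T : Set (ℕ → ℂ)) (hT : Tame s T) (F : G → ℂ)
    (hF : LevN A Γ e (s + 1) F) (hG : GoodN e (s + 1) F) (a : ℕ → ℂ) (ha : ∀ n, ‖a n‖ ≤ 1)
    (hmul : Mult a) (ε : ℝ) (hε : 0 < ε) : MZ T (π 1) F a ε := by
  have hCo : Cocompact' Γ := by
    obtain ⟨C, hC1, _, hC3⟩ := hN.coc 0
    exact ⟨C, hC1, fun x => hC3 x (by rw [hN.A0]; trivial)⟩
  obtain ⟨B, hB0, hB⟩ := reg_bdd hCo hF.1
  obtain ⟨B', hB', hTB⟩ := hT.bdd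
  have hBne : (B : ℂ) ≠ 0 := by exact_mod_cast hB0.ne'
  have hB'ne : (B' : ℂ) ≠ 0 := by exact_mod_cast hB'.ne'
  set F' : G → ℂ := fun x => (B : ℂ)⁻¹ * F x with hF'
  have hF'L : LevN A Γ e (s + 1) F' := by
    refine ⟨reg_const_mul hF.1 _, fun z hz x => ?_, fun j => ?_⟩
    · simp only [hF']; rw [hF.2.1 z hz x]
    · obtain ⟨m, hm⟩ := hF.2.2 j
      exact ⟨m, hm.mul_const _⟩
  have hF'1 : ∀ x, ‖F' x‖ ≤ 1 := by
    intro x
    simp only [hF']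
    rw [norm_mul, norm_inv, Complex.norm_real, Real.norm_eq_abs, abs_of_pos hB0,
      inv_mul_le_iff₀ hB0, mul_one]
    exact hB x
  have hF'G : GoodN e (s + 1) F' := by
    obtain ⟨j, m, hm, h⟩ := hG
    exact ⟨j, m, hm, h.mul_const _⟩
  set T' : Set (ℕ → ℂ) := {s | ∃ t ∈ T, s = fun l => (B' : ℂ)⁻¹ * t l} with hT'
  have hT'1 : ∀ s ∈ T', ∀ l, ‖s l‖ ≤ 1 := by
    rintro s ⟨t, ht, rfl⟩ l
    rw [norm_mul, norm_inv, Complex.norm_real, Real.norm_eq_abs, abs_of_pos hB',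
      inv_mul_le_iff₀ hB', mul_one]
    exact hTB t ht l
  refine mz_scale (T' := T') (F' := F') ha (mul_pos hB0 hB') ⟨1, hF'1⟩ ⟨1, one_pos, hT'1⟩ ?_ ?_
  · intro t ht
    refine ⟨fun l => (B' : ℂ)⁻¹ * t l, ⟨t, ht, rfl⟩, fun x l => ?_⟩
    simp only [hF']
    push_cast
    field_simp
  · obtain ⟨K, v, hv, hm⟩ := fam_eps hN s T' (tame_smul hT _) hT'1 F' hF'L hF'G hF'1 a ha hmul
      (ε / (B * B')) (by positivity)
    refine ⟨K, v, hv, fun C hC hCC => ?_⟩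
    exact hm C hC fun k hk => hCC k (mem_kbox.1 hk).2 (mem_kbox.1 hk).1

end

end Pool.Agent.Lib.MP_663568_nt.NC
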