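import Mathlib
import Pool.Agent.Lib.NC62.N7

/-!
# The estimate for continuous functions on the nilmanifold
-/

set_option autoImplicit false
set_option linter.unusedSectionVars false
open Finset MeasureTheory

namespace Pool.Agent.Lib.MP_663568_nt.NC

open Katai Tw Fib Nul T3 E Q

section

variable {G : Type} [Group G] [TopologicalSpace G] [IsTopologicalGroup G] {A : ℕ → Subgroup G}
  {Γ : Subgroup G}
  {β : ℕ → Type} [∀ s, Fintype (β s)] [∀ s, DecidableEq (β s)]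
  {π : (s : ℕ) → G → β s → ℝ} {e : (s : ℕ) → β s → ℝ → G}

/-- The estimate with tame twists. -/
theorem mean_tameZ (hN : NS A Γ π e) (t : ℕ) (ht : A (t + 1) = ⊥)
    [MeasurableSpace (G ⧸ Γ)] [BorelSpace (G ⧸ Γ)] (m : Measure (G ⧸ Γ)) [IsProbabilityMeasure m]
    (hm : ∀ g : G, m.map (fun x => g • x) = m) (s : ℕ) (T : Set (ℕ → ℂ))
    (hT : Tame s T)
    (f : G ⧸ Γ → ℂ) (hf : Continuous f)
    (hf0 : ∀ φ : G ⧸ Γ → ℂ, Continuous φ → (∀ z ∈ A (s + 1), ∀ x : G ⧸ Γ, φ (z • x) = φ x) →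
      ∫ x, f x * (starRingEnd ℂ) (φ x) ∂m = 0) (a : ℕ → ℂ) (ha : ∀ n, ‖a n‖ ≤ 1)
    (hmul : Mult a) (ε : ℝ) (hε : 0 < ε) :
    MZ T (π 1) (fun x : G => f (x : G ⧸ Γ)) a ε := by
  classical
  obtain ⟨B₁, hB₁, hTB⟩ := hT.bdd
  have hCo := coc_prime hN
  set F0 : G → ℂ := fun x : G => f (x : G ⧸ Γ) with hF0
  have hF0r : Reg Γ F0 := ⟨hf.comp QuotientGroup.continuous_mk, fun x γ hγ => by
    simp only [hF0]
    rw [QuotientGroup.mk_mul_of_mem x hγ]⟩
  have hnorm : (A (s + 1)).Normal := by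
    refine ⟨fun z hz g => ?_⟩
    have h1 : g * z * g⁻¹ * z⁻¹ ∈ A (s + 1) := by
      have h2 := hN.comm 0 (s + 1) (Subgroup.commutator_mem_commutator (g₁ := g) (g₂ := z)
        (by rw [hN.A0]; trivial) hz)
      rw [zero_add] at h2
      simpa [commutatorElement_def] using h2
    have h3 := (A (s + 1)).mul_mem h1 hz
    rwa [inv_mul_cancel_right] at h3
  have hQ0 : Ort m (A (s + 1)) F0 := by
    intro F' φ hF' hφ hinv
    have e1 : F' = f := by
      funext x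
      obtain ⟨y, rfl⟩ := QuotientGroup.mk_surjective x
      exact hF' y
    rw [e1]
    exact hf0 φ hφ hinv
  obtain ⟨ι, hι, lev, F, c, hF1, hF2⟩ := level_decomp_Q A hN.anti hN.comm hN.A1 Γ hCo (esL e)
    (esL_onep hN) (esL_gen hN) (Ort m (A (s + 1)))
    (fun φ hφ hQ s' hs' e' he' n => ort_pop m hN hm (A (s + 1)) hnorm φ hφ hQ e'
      (esL_onep hN s' hs' e' he').1 n)
    (fun φ hφ hQ c => ort_mul m (A (s + 1)) φ hφ hQ c)
    (fun ι t F h => ort_sum m hN (A (s + 1)) ι t F h)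
    t F0 hF0r
    (by
      rw [ht]
      intro z hz x
      rw [Subgroup.mem_bot.mp hz, one_mul]) hQ0 (ε / (8 * B₁)) (by positivity)
  -- the constant
  have hc : ‖c‖ ≤ ε / (8 * B₁) := by
    have hd : ∀ i, ∃ F' : G ⧸ Γ → ℂ, Continuous F' ∧ ∀ x : G, F' (x : G ⧸ Γ) = F i x := fun i =>
      exists_descend (hF1 i).2.1.1
    choose F' hF'c hF' using hd
    have hone : ∀ z ∈ A (s + 1), ∀ x : G ⧸ Γ, (fun _ : G ⧸ Γ => (1 : ℂ)) (z • x) =
        (fun _ : G ⧸ Γ => (1 : ℂ)) x := fun _ _ _ => rfl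
    have hz : ∀ i, ∫ x, F' i x ∂m = 0 := by
      intro i
      have := (hF1 i).2.2.2 (F' i) (fun _ => 1) (hF' i) continuous_const hone
      simpa using this
    have hz0 : ∫ x, f x ∂m = 0 := by
      have := hf0 (fun _ => 1) continuous_const hone
      simpa using this
    have hcpt : CompactSpace (G ⧸ Γ) := by
      obtain ⟨C, hC1, hC2⟩ := hCo
      refine ⟨?_⟩
      have : (Set.univ : Set (G ⧸ Γ)) = (fun g : G => (g : G ⧸ Γ)) '' C := by
        ext x
        simp only [Set.mem_univ, true_iff]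
        obtain ⟨g, rfl⟩ := QuotientGroup.mk_surjective x
        obtain ⟨c, hc, γ, hγ, e⟩ := hC2 g
        exact ⟨c, hc, (coe_eq_of_mul Γ _ _ _ hγ e).symm⟩
      rw [this]
      exact hC1.image QuotientGroup.continuous_mk
    have hint : ∀ {φ : G ⧸ Γ → ℂ}, Continuous φ → Integrable φ m := fun {φ} hφ => by
      obtain ⟨B, hB⟩ : ∃ B : ℝ, ∀ x, ‖φ x‖ ≤ B := by
        have h1 : IsCompact (Set.range fun x => ‖φ x‖) := isCompact_range (by fun_prop)
        obtain ⟨B, hB⟩ := h1.bddAbove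
        exact ⟨B, fun x => hB ⟨x, rfl⟩⟩
      exact Integrable.of_bound hφ.aestronglyMeasurable B (Filter.Eventually.of_forall hB)
    have e1 : ∫ x, (f x - ∑ i, F' i x - c) ∂m = -c := by
      have i1 : Integrable (fun x => ∑ i, F' i x) m :=
        integrable_finsetSum _ fun i _ => hint (hF'c i)
      have i2 : Integrable (fun x => f x - ∑ i, F' i x) m := (hint hf).sub i1
      rw [integral_sub i2 (integrable_const _), integral_sub (hint hf) i1,
        hz0, integral_finsetSum _ (fun i _ => hint (hF'c i))]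
      simp [hz]
    have e2 : ‖∫ x, (f x - ∑ i, F' i x - c) ∂m‖ ≤ ε / (8 * B₁) := by
      have := norm_integral_le_of_norm_le_const (μ := m) (f := fun x => f x - ∑ i, F' i x - c)
        (C := ε / (8 * B₁)) (Filter.Eventually.of_forall fun x => by
          obtain ⟨y, rfl⟩ := QuotientGroup.mk_surjective x
          have := hF2 y
          simpa only [hF'] using this)
      simpa using this
    rw [e1, norm_neg] at e2
    exact e2
  refine mz_approx T hT.bdd B₁ hB₁ hTB (π 1) F0 a ha ε hε ι F (fun i => ?_) (fun i => ?_)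
    (fun x => ?_)
  · obtain ⟨B, _, hB⟩ := reg_bdd hCo (hF1 i).2.1.1
    exact ⟨B, hB⟩
  · have hL := (lev_iff (lev i) (F i)).1 (hF1 i).2.1
    have hGd := (good_iff (lev i) (F i)).1 (hF1 i).2.2.1
    have h1 := (hF1 i).1
    by_cases h2 : s + 1 ≤ lev i
    · obtain ⟨k, hk⟩ : ∃ k, lev i = k + 1 := ⟨lev i - 1, by omega⟩
      rw [hk] at hL hGd
      exact char_Z hN k T (hT.mono (by omega)) (F i) hL hGd a ha hmul _ (by positivity)
    · refine mz_zero _ _ _ _ (fun x => ?_) _ (by positivity)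
      refine ort_zero m hN hm (A (s + 1)) (F i) (hF1 i).2.1.1 ?_ (hF1 i).2.2.2 x
      intro z hz y
      exact (hF1 i).2.1.2.1 z (hN.anti (by omega : lev i + 1 ≤ s + 1) hz) y
  · calc _ = ‖(F0 x - ∑ i, F i x - c) + c‖ := by congr 1; ring
      _ ≤ ε / (8 * B₁) + ε / (8 * B₁) := (norm_add_le _ _).trans (add_le_add (hF2 x) hc)
      _ = ε / (4 * B₁) := by field_simp; ring

end

/-- Products of nilsequences of step at most `d` and polynomial phases of degree at most `d`. -/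
theorem nilR_qtm' {K : Type} [Group K] [TopologicalSpace K] [IsTopologicalGroup K]
    {B : ℕ → Subgroup K} {Λ : Subgroup K} {β : ℕ → Type} [∀ s, Fintype (β s)]
    [∀ s, DecidableEq (β s)] {π : (s : ℕ) → K → β s → ℝ} {e : (s : ℕ) → β s → ℝ → K}
    (hN : NS B Λ π e) (d : ℕ) (ψ : K → ℂ) (hr : Reg Λ ψ)
    (hinv : Inv (B (d + 1)) ψ) : QTm d (NilR d ψ) := by
  rcases Nat.eq_zero_or_pos d with rfl | hd
  · intro ε hε
    refine ⟨NilR 0 ψ, ⟨⟨‖ψ 1‖ + 1, by positivity, ?_⟩, ?_⟩, Unit, inferInstance, ?_⟩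
    · rintro t ⟨h, y, q, hq, rfl⟩ l
      have h1 : ψ (h ^ l * y) = ψ 1 := by
        have := hinv (h ^ l * y) (by rw [zero_add, hN.A1]; trivial) 1
        rwa [mul_one] at this
      rw [norm_mul, norm_ee, mul_one, h1]
      linarith
    · rintro t ⟨h, y, q, hq, rfl⟩ l
      have h1 : ∀ z : K, ψ z = ψ 1 := fun z => by
        have := hinv z (by rw [zero_add, hN.A1]; trivial) 1
        rwa [mul_one] at this
      have h2 : q l = q 0 := hq l
      simp only [h1 (h ^ l * y), h1 (h ^ 0 * y), h2]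
    · intro t ht
      exact ⟨fun _ => t, fun _ => Or.inl ht, fun l => by simp [hε.le]⟩
  · exact nilR_qtm hN d hd ψ hr hinv

/-- The estimate with twists by nilsequences of lower step and polynomial phases. -/
theorem mean_nilZ {G : Type} [Group G] [TopologicalSpace G] [IsTopologicalGroup G]
    {A : ℕ → Subgroup G} {Γ : Subgroup G}
    {β : ℕ → Type} [∀ s, Fintype (β s)] [∀ s, DecidableEq (β s)]
    {π : (s : ℕ) → G → β s → ℝ} {e : (s : ℕ) → β s → ℝ → G}
    (hN : NS A Γ π e) (t : ℕ) (ht : A (t + 1) = ⊥)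
    [MeasurableSpace (G ⧸ Γ)] [BorelSpace (G ⧸ Γ)] (m : Measure (G ⧸ Γ)) [IsProbabilityMeasure m]
    (hm : ∀ g : G, m.map (fun x => g • x) = m) (d : ℕ)
    (f : G ⧸ Γ → ℂ) (hf : Continuous f)
    (hf0 : ∀ φ : G ⧸ Γ → ℂ, Continuous φ → (∀ z ∈ A (d + 1), ∀ x : G ⧸ Γ, φ (z • x) = φ x) →
      ∫ x, f x * (starRingEnd ℂ) (φ x) ∂m = 0)
    {K : Type} [Group K] [TopologicalSpace K] [IsTopologicalGroup K]
    {B : ℕ → Subgroup K} {Λ : Subgroup K} {β' : ℕ → Type} [∀ s, Fintype (β' s)]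
    [∀ s, DecidableEq (β' s)] {π' : (s : ℕ) → K → β' s → ℝ} {e' : (s : ℕ) → β' s → ℝ → K}
    (hN' : NS B Λ π' e') (ψ : K → ℂ) (hr : Reg Λ ψ) (hinv : Inv (B (d + 1)) ψ)
    (a : ℕ → ℂ) (ha : ∀ n, ‖a n‖ ≤ 1) (hmul : Mult a)
    (ε : ℝ) (hε : 0 < ε) :
    MZ (NilR d ψ) (π 1) (fun x : G => f (x : G ⧸ Γ)) a ε := by
  have hCo := coc_prime hN
  have hF0r : Reg Γ (fun x : G => f (x : G ⧸ Γ)) :=
    ⟨hf.comp QuotientGroup.continuous_mk, fun x γ hγ => by
      simp only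
      rw [QuotientGroup.mk_mul_of_mem x hγ]⟩
  obtain ⟨B₀, hB₀, hB⟩ := reg_bdd hCo hF0r
  exact mz_qtm d (π 1) _ a ha B₀ hB hB₀ (fun S hS ε' hε' => mean_tameZ hN t ht m hm d
    S hS f hf hf0 a ha hmul ε' hε') _ (nilR_qtm' hN' d ψ hr hinv) ε hε

end Pool.Agent.Lib.MP_663568_nt.NC
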