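import Mathlib
import Pool.Agent.Lib.NC62.N8
import Pool.Agent.Lib.WC86.Short
import Pool.Agent.Lib.WC86.Major

/-!
# All continuous functions, for the Möbius function
-/

set_option autoImplicit false
open Finset MeasureTheory

namespace Pool.Agent.Lib.MP_663568_nt.NC

open Katai Tw Fib Nul T3 E Q

/-- Short sums of the Möbius function. -/
lemma mu_short (ε : ℝ) (hε : 0 < ε) : ∃ H₀ : ℕ, ∀ H N : ℕ, H₀ ≤ H → H ≤ N →
    ∑ n ∈ Icc 1 N, (1 / (n : ℝ)) * ‖∑ h ∈ Icc 1 H, muC (n + h)‖ ≤ ε * H * Real.log N := by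
  obtain ⟨d, hd, _, H₀, h⟩ := WC86.major WC86.muAP_top ε 1 hε
  refine ⟨H₀, fun H N hH hHN => le_trans (sum_le_sum fun n _ => ?_) (h H N hH hHN)⟩
  refine mul_le_mul_of_nonneg_left ?_ (by positivity)
  have h0 : (0 : ℝ) ∈ WC86.Maj 1 d := ⟨1, le_rfl, by norm_num, 0, by simpa using hd⟩
  have h1 := le_GG (fun i : {i // i ∈ WC86.Maj 1 d} => WC86.lin i.1) WC86.mu
    (fun i n => by rw [WC86.lin, norm_ee]) norm_muC H n ⟨0, h0⟩
  refine le_trans (le_of_eq ?_) h1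
  congr 1
  refine sum_congr rfl fun j _ => ?_
  simp only [WC86.lin, zero_mul]
  have h2 : ee 0 = 1 := by simp [ee]
  rw [h2, one_mul]
  rfl

section

variable {G : Type} [Group G] {J : Type} [Fintype J]

/-- The constant functions. -/
lemma mz_const (T : Set (ℕ → ℂ)) (hT : Tame 0 T) (p : G → J → ℝ) (c : ℂ) (ε : ℝ) (hε : 0 < ε) :
    MZ T p (fun _ => c) muC ε := by
  obtain ⟨⟨B, hB, hTB⟩, hT0⟩ := hT
  obtain ⟨H₀, h⟩ := mu_short (ε / (‖c‖ * B + 1)) (by positivity)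
  refine ⟨0, 1, one_pos, fun C _ _ => ⟨1, one_pos, H₀, fun N H hH hHN => ?_⟩⟩
  have h1 := h H N hH hHN
  have hlog : 0 ≤ (H : ℝ) * Real.log N := mul_nonneg (by positivity) (Real.log_natCast_nonneg N)
  have h2 : ∀ n, GG (famZ p C 1 T fun _ => c) muC H n ≤
      (‖c‖ * B) * ‖∑ h ∈ Icc 1 H, muC (n + h)‖ := by
    intro n
    refine Real.iSup_le (fun i => ?_) (by positivity)
    have h3 : ∑ h ∈ Icc 1 H, famZ p C 1 T (fun _ => c) i (n + h) * muC (n + h) =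
        (c * (i.1.2.2 : ℕ → ℂ) 0) * ∑ h ∈ Icc 1 H, muC (n + h) := by
      rw [mul_sum]
      refine sum_congr rfl fun h _ => ?_
      simp only [famZ]
      rw [hT0 _ i.1.2.2.2 (n + h)]
    rw [h3, norm_mul, norm_mul]
    refine mul_le_mul_of_nonneg_right ?_ (norm_nonneg _)
    exact mul_le_mul_of_nonneg_left (hTB _ i.1.2.2.2 0) (norm_nonneg _)
  calc _ ≤ ∑ n ∈ Icc 1 N, (1 / (n : ℝ)) * ((‖c‖ * B) * ‖∑ h ∈ Icc 1 H, muC (n + h)‖) :=
        sum_le_sum fun n _ => mul_le_mul_of_nonneg_left (h2 n) (by positivity)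
    _ = (‖c‖ * B) * ∑ n ∈ Icc 1 N, (1 / (n : ℝ)) * ‖∑ h ∈ Icc 1 H, muC (n + h)‖ := by
        rw [mul_sum]
        exact sum_congr rfl fun n _ => by ring
    _ ≤ (‖c‖ * B) * (ε / (‖c‖ * B + 1) * H * Real.log N) :=
        mul_le_mul_of_nonneg_left h1 (by positivity)
    _ = (‖c‖ * B) / (‖c‖ * B + 1) * (ε * (H * Real.log N)) := by field_simp
    _ ≤ 1 * (ε * (H * Real.log N)) := by
        refine mul_le_mul_of_nonneg_right ?_ (mul_nonneg hε.le hlog)
        rw [div_le_one (by positivity)]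
        linarith
    _ = ε * H * Real.log N := by ring

end

/-- The estimate for all continuous functions, for the Möbius function. -/
theorem mean_muZ {G : Type} [Group G] [TopologicalSpace G] [IsTopologicalGroup G]
    {A : ℕ → Subgroup G} {Γ : Subgroup G}
    {β : ℕ → Type} [∀ s, Fintype (β s)] [∀ s, DecidableEq (β s)]
    {π : (s : ℕ) → G → β s → ℝ} {e : (s : ℕ) → β s → ℝ → G}
    (hN : NS A Γ π e) (t : ℕ) (ht : A (t + 1) = ⊥)
    [MeasurableSpace (G ⧸ Γ)] [BorelSpace (G ⧸ Γ)] (m : Measure (G ⧸ Γ)) [IsProbabilityMeasure m]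
    (hm : ∀ g : G, m.map (fun x => g • x) = m)
    (f : G ⧸ Γ → ℂ) (hf : Continuous f) (T : Set (ℕ → ℂ)) (hT : Tame 0 T)
    (ε : ℝ) (hε : 0 < ε) :
    MZ T (π 1) (fun x : G => f (x : G ⧸ Γ)) muC ε := by
  classical
  obtain ⟨B₁, hB₁, hTB⟩ := hT.bdd
  have hCo := coc_prime hN
  have hcpt : CompactSpace (G ⧸ Γ) := by
    obtain ⟨C, hC1, hC2⟩ := hCo
    refine ⟨?_⟩
    have : (Set.univ : Set (G ⧸ Γ)) = (fun g : G => (g : G ⧸ Γ)) '' C := by
      ext x
      simp only [Set.mem_univ, true_iff]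
      obtain ⟨g, rfl⟩ := QuotientGroup.mk_surjective x
      obtain ⟨c, hc, γ, hγ, e⟩ := hC2 g
      exact ⟨c, hc, (coe_eq_of_mul Γ _ _ _ hγ e).symm⟩
    rw [this]
    exact hC1.image QuotientGroup.continuous_mk
  have hint : ∀ {φ : G ⧸ Γ → ℂ}, Continuous φ → Integrable φ m := fun {φ} hφ => by
    obtain ⟨B, hB⟩ : ∃ B : ℝ, ∀ x, ‖φ x‖ ≤ B := by
      have h1 : IsCompact (Set.range fun x => ‖φ x‖) := isCompact_range (by fun_prop)
      obtain ⟨B, hB⟩ := h1.bddAbove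
      exact ⟨B, fun x => hB ⟨x, rfl⟩⟩
    exact Integrable.of_bound hφ.aestronglyMeasurable B (Filter.Eventually.of_forall hB)
  set c₀ : ℂ := ∫ x, f x ∂m with hc₀
  set f₀ : G ⧸ Γ → ℂ := fun x => f x - c₀ with hf₀
  have hf₀c : Continuous f₀ := hf.sub continuous_const
  have hort : ∀ φ : G ⧸ Γ → ℂ, Continuous φ → (∀ z ∈ A (0 + 1), ∀ x : G ⧸ Γ, φ (z • x) = φ x) →
      ∫ x, f₀ x * (starRingEnd ℂ) (φ x) ∂m = 0 := by
    intro φ _ hinv
    have h1 : ∀ x, φ x = φ ((1 : G) : G ⧸ Γ) := by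
      intro x
      obtain ⟨y, rfl⟩ := QuotientGroup.mk_surjective x
      have h2 := hinv y (by rw [zero_add, hN.A1]; trivial) ((1 : G) : G ⧸ Γ)
      have h3 : y • ((1 : G) : G ⧸ Γ) = ((y : G) : G ⧸ Γ) := by
        rw [MulAction.Quotient.smul_coe, smul_eq_mul, mul_one]
      rw [← h3]
      exact h2
    have h4 : ∀ x, f₀ x * (starRingEnd ℂ) (φ x) =
        f₀ x * (starRingEnd ℂ) (φ ((1 : G) : G ⧸ Γ)) := fun x => by rw [h1 x]
    simp only [h4]
    rw [integral_mul_const]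
    have h5 : ∫ x, f₀ x ∂m = 0 := by
      rw [hf₀, integral_sub (hint hf) (integrable_const _)]
      simp [hc₀]
    rw [h5, zero_mul]
  obtain ⟨B₂, hB₂0, hB₂⟩ := reg_bdd hCo (⟨hf₀c.comp QuotientGroup.continuous_mk, fun x γ hγ => by
      simp only
      rw [QuotientGroup.mk_mul_of_mem x hγ]⟩ : Reg Γ (fun x : G => f₀ (x : G ⧸ Γ)))
  set Fs : Bool → G → ℂ := fun b => if b then (fun x : G => f₀ (x : G ⧸ Γ)) else fun _ => c₀ with hFs
  refine mz_approx T hT.bdd B₁ hB₁ hTB (π 1) _ muC norm_muC ε hε Bool Fs ?_ ?_ ?_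
  · intro b
    cases b
    · exact ⟨‖c₀‖, fun x => by simp [hFs]⟩
    · exact ⟨B₂, fun x => by simpa [hFs] using hB₂ x⟩
  · intro b
    cases b
    · have := mz_const (G := G) T hT (π 1) c₀ (ε / (2 * ((Fintype.card Bool : ℕ) + 1)))
        (by positivity)
      simpa [hFs] using this
    · have := mean_tameZ hN t ht m hm 0 T hT f₀ hf₀c hort muC norm_muC
        (fun p hp k hk => muC_mul p hp k hk) (ε / (2 * ((Fintype.card Bool : ℕ) + 1)))
        (by positivity)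
      simpa [hFs] using this
  · intro x
    have : f (x : G ⧸ Γ) - ∑ b, Fs b x = 0 := by
      rw [Fintype.sum_bool]
      simp [hFs, hf₀]
    rw [this, norm_zero]
    positivity

end Pool.Agent.Lib.MP_663568_nt.NC
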