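import Mathlib
import Pool.Agent.Lib.NC62.N9
import Pool.Agent.Lib.MP_663568_q.R09

/-!
# The two estimates in the form of the hand-in
-/

set_option autoImplicit false
open Finset MeasureTheory

namespace Pool.Agent.Lib.MP_663568_nt.NC

open Katai Tw Fib Nul T3 E

/-- The logarithmic average over `n ≤ N` of the supremum over `g ∈ E`, `x ∈ G`, `k, y ∈ K` and the
real polynomials `Q` of degree at most `s` of
`|∑_{h ≤ H} a(n + h) f(g ^ h x Γ) ψ(k ^ h y Λ) e(Q(h))|`. -/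
noncomputable def Avg {G K : Type} [Group G] [Group K] {Γ : Subgroup G} {Λ : Subgroup K}
    (f : G ⧸ Γ → ℂ) (ψ : K ⧸ Λ → ℂ) (a : ℕ → ℂ) (s : ℕ) (E : Set G) (N H : ℕ) : ℝ :=
  ∑ n ∈ Finset.Icc 1 N, (1 / (n : ℝ)) *
    ⨆ v : (↥E × G) × (K × K) × {Q : Polynomial ℝ // Q.natDegree ≤ s},
      ‖∑ h ∈ Finset.Icc 1 H, a (n + h) * (f (QuotientGroup.mk ((v.1.1 : G) ^ h * v.1.2)) *
        ψ (QuotientGroup.mk (v.2.1.1 ^ h * v.2.1.2)) *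
        Complex.exp (2 * Real.pi * Complex.I * ((v.2.2.1.eval (h : ℝ) : ℝ) : ℂ)))‖

/-- From the families with `n + h` to the form of `Avg`. -/
lemma avg_le {G K : Type} [Group G] [Group K] {Γ : Subgroup G} {Λ : Subgroup K}
    (f : G ⧸ Γ → ℂ) (ψ : K ⧸ Λ → ℂ) (a : ℕ → ℂ) (s : ℕ) (E : Set G) (N H : ℕ)
    (U : ℕ → ℝ) (hU : ∀ n, 0 ≤ U n)
    (h : ∀ n, ∀ g ∈ E, ∀ x : G, ∀ t ∈ Q.NilR s (fun y : K => ψ (y : K ⧸ Λ)),
      ‖∑ h ∈ Icc 1 H, (f ((g ^ (n + h) * x : G) : G ⧸ Γ) * t (n + h)) * a (n + h)‖ ≤ U n) :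
    Avg f ψ a s E N H ≤ ∑ n ∈ Icc 1 N, (1 / (n : ℝ)) * U n := by
  refine sum_le_sum fun n _ => mul_le_mul_of_nonneg_left ?_ (by positivity)
  refine Real.iSup_le ?_ (hU n)
  rintro ⟨⟨⟨g, hg⟩, x⟩, ⟨k, y⟩, ⟨q, hq⟩⟩
  have hdeg : (q.comp (Polynomial.X - Polynomial.C (n : ℝ))).natDegree ≤ s := by
    refine Polynomial.natDegree_comp_le.trans ?_
    have h1 : (Polynomial.X - Polynomial.C (n : ℝ)).natDegree ≤ 1 :=
      Polynomial.natDegree_X_sub_C_le _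
    calc q.natDegree * (Polynomial.X - Polynomial.C (n : ℝ)).natDegree ≤ s * 1 :=
          Nat.mul_le_mul hq h1
      _ = s := mul_one s
  refine le_trans (le_of_eq ?_) (h n g hg ((g ^ n)⁻¹ * x) (fun l =>
    ψ ((k ^ l * ((k ^ n)⁻¹ * y) : K) : K ⧸ Λ) *
      ee ((q.comp (Polynomial.X - Polynomial.C (n : ℝ))).eval (l : ℝ)))
    ⟨k, (k ^ n)⁻¹ * y, fun l => (q.comp (Polynomial.X - Polynomial.C (n : ℝ))).eval (l : ℝ),
      PP.eval _ s hdeg, rfl⟩)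
  congr 1
  refine sum_congr rfl fun h _ => ?_
  have e1 : g ^ (n + h) * ((g ^ n)⁻¹ * x) = g ^ h * x := by
    rw [add_comm n h, pow_add]
    group
  have e2 : k ^ (n + h) * ((k ^ n)⁻¹ * y) = k ^ h * y := by
    rw [add_comm n h, pow_add]
    group
  have e3 : (q.comp (Polynomial.X - Polynomial.C (n : ℝ))).eval (((n + h : ℕ) : ℝ)) =
      q.eval (h : ℝ) := by
    rw [Polynomial.eval_comp]
    congr 1
    simp
  simp only [e1, e2, e3]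
  rw [ee]
  ring

/-- The elements whose horizontal part is at distance less than `ρ` from `B + ℤ ^ d`. -/
def NearB {G : Type} {d : ℕ} (π : G → Fin d → ℝ) (B : Set (Fin d → ℝ)) (ρ : ℝ) : Set G :=
  {g | ∃ b ∈ B, ∀ j, ∃ z : ℤ, |π g j - b j - z| < ρ}

/-- All `k ⬝ b`, `b ∈ B`, `0 < |k| ≤ L`, are irrational, and for every such `k` they form a set of
measure less than `v` in `ℝ / ℤ`. -/
def SmallB {d : ℕ} (B : Set (Fin d → ℝ)) (L : ℕ) (v : ℝ) : Prop :=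
  ∀ k : Fin d → ℤ, k ≠ 0 → (∀ j, |k j| ≤ (L : ℤ)) →
    (∀ b ∈ B, Irrational (∑ j, (k j : ℝ) * b j)) ∧
      MeasureTheory.volume ((fun b : Fin d → ℝ => ((∑ j, (k j : ℝ) * b j : ℝ) : UnitAddCircle)) '' B)
        < ENNReal.ofReal v

/-- The estimate for closed sets. -/
theorem final_closed {G K : Type} [Group G] [TopologicalSpace G] [IsTopologicalGroup G]
    [Group K] [TopologicalSpace K] [IsTopologicalGroup K] {Γ : Subgroup G} {Λ : Subgroup K}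
    {A : ℕ → Subgroup G} {A' : ℕ → Subgroup K} {d : ℕ → ℕ} {d' : ℕ → ℕ}
    {π : (s : ℕ) → G → Fin (d s) → ℝ} {e : (s : ℕ) → Fin (d s) → ℝ → G}
    {π' : (s : ℕ) → K → Fin (d' s) → ℝ} {e' : (s : ℕ) → Fin (d' s) → ℝ → K}
    (hN : NS A Γ π e) (hN' : NS A' Λ π' e') (t s : ℕ) (ht : A (t + 1) = ⊥) (hs : A' (s + 1) = ⊥)
    [MeasurableSpace (G ⧸ Γ)] [BorelSpace (G ⧸ Γ)] (m : Measure (G ⧸ Γ)) [IsProbabilityMeasure m]
    (hm : ∀ g : G, m.map (fun x => g • x) = m)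
    (a : ℕ → ℂ) (ha : ∀ n, ‖a n‖ ≤ 1) (hmul : Mult a)
    (f : G ⧸ Γ → ℂ) (hf : Continuous f)
    (hf0 : (s = 0 ∧ a = muC) ∨ ∀ φ : G ⧸ Γ → ℂ, Continuous φ →
      (∀ z ∈ A (s + 1), ∀ x : G ⧸ Γ, φ (z • x) = φ x) →
      ∫ x, f x * (starRingEnd ℂ) (φ x) ∂m = 0)
    (ψ : K ⧸ Λ → ℂ) (hψ : Continuous ψ) (ε : ℝ) (hε : 0 < ε) :
    ∃ (L : ℕ) (v : ℝ), 0 < v ∧ ∀ B : Set (Fin (d 1) → ℝ), IsCompact B → SmallB B L v →
      ∃ ρ : ℝ, 0 < ρ ∧ ∃ H₀ : ℕ, ∀ H N : ℕ, H₀ ≤ H → H ≤ N →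
        Avg f ψ a s (NearB (π 1) B ρ) N H ≤ ε * H * Real.log N := by
  have hψr : Reg Λ (fun y : K => ψ (y : K ⧸ Λ)) :=
    ⟨hψ.comp QuotientGroup.continuous_mk, fun x γ hγ => by
      simp only
      rw [QuotientGroup.mk_mul_of_mem x hγ]⟩
  have hfr : Reg Γ (fun x : G => f (x : G ⧸ Γ)) :=
    ⟨hf.comp QuotientGroup.continuous_mk, fun x γ hγ => by
      simp only
      rw [QuotientGroup.mk_mul_of_mem x hγ]⟩
  have hψinv : Inv (A' (s + 1)) (fun y : K => ψ (y : K ⧸ Λ)) := by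
    rw [hs]
    intro z hz x
    rw [Subgroup.mem_bot.mp hz, one_mul]
  obtain ⟨B₀, _, hB₀⟩ := reg_bdd (coc_prime hN) hfr
  have hmain : MZ (Q.NilR s (fun y : K => ψ (y : K ⧸ Λ))) (π 1)
      (fun x : G => f (x : G ⧸ Γ)) a ε := by
    rcases hf0 with ⟨rfl, rfl⟩ | hf0
    · obtain ⟨B₁, hB₁, hB₁'⟩ := reg_bdd (coc_prime hN) hfr
      exact mz_qtm 0 (π 1) _ muC norm_muC B₁ hB₁' hB₁ (fun S hS ε' hε' => mean_muZ hN t ht m hm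
        f hf S hS ε' hε') _ (nilR_qtm' hN' 0 _ hψr hψinv) ε hε
    · exact mean_nilZ hN t ht m hm s f hf hf0 hN' _ hψr hψinv a ha hmul ε hε
  obtain ⟨L, v, hv, hmain⟩ := hmain
  refine ⟨L, v, hv, fun B hB hBs => ?_⟩
  obtain ⟨ρ, hρ, H₀, h⟩ := hmain B hB (by
    intro k hk hkL
    refine ⟨(hBs k hk hkL).1, ?_⟩
    have h1 := (hBs k hk hkL).2
    rw [Set.image_image]
    exact (ENNReal.toReal_lt_of_lt_ofReal h1))
  refine ⟨ρ, hρ, H₀, fun H N hH hHN => ?_⟩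
  refine (avg_le f ψ a s _ N H (fun n => GG (famZ (π 1) B ρ
    (Q.NilR s (fun y : K => ψ (y : K ⧸ Λ))) (fun x : G => f (x : G ⧸ Γ))) a H n)
    (fun n => GG_nonneg _ _ _ _) ?_).trans (h N H hH hHN)
  intro n g hg x τ hτ
  exact le_GGZ (p := π 1) (C := B) (ρ := ρ) (T := Q.NilR s (fun y : K => ψ (y : K ⧸ Λ)))
    (F := fun x : G => f (x : G ⧸ Γ)) ⟨B₀, hB₀⟩ (Q.nilR_bdd (coc_prime hN') s _ hψr) ha H n
    ⟨(g, x, ⟨τ, hτ⟩), hg⟩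

/-- The estimate outside the major arcs. -/
theorem final_major {G K : Type} [Group G] [TopologicalSpace G] [IsTopologicalGroup G]
    [Group K] [TopologicalSpace K] [IsTopologicalGroup K] {Γ : Subgroup G} {Λ : Subgroup K}
    {A : ℕ → Subgroup G} {A' : ℕ → Subgroup K} {d : ℕ → ℕ} {d' : ℕ → ℕ}
    {π : (s : ℕ) → G → Fin (d s) → ℝ} {e : (s : ℕ) → Fin (d s) → ℝ → G}
    {π' : (s : ℕ) → K → Fin (d' s) → ℝ} {e' : (s : ℕ) → Fin (d' s) → ℝ → K}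
    (hN : NS A Γ π e) (hN' : NS A' Λ π' e') (t s : ℕ) (hs1 : 1 ≤ s) (ht : A (t + 1) = ⊥)
    (hs : A' (s + 1) = ⊥)
    [MeasurableSpace (G ⧸ Γ)] [BorelSpace (G ⧸ Γ)] (m : Measure (G ⧸ Γ)) [IsProbabilityMeasure m]
    (hm : ∀ g : G, m.map (fun x => g • x) = m)
    (f : G ⧸ Γ → ℂ) (hf : Continuous f)
    (hf0 : ∀ φ : G ⧸ Γ → ℂ, Continuous φ →
      (∀ z ∈ A (s + 1), ∀ x : G ⧸ Γ, φ (z • x) = φ x) →
      ∫ x, f x * (starRingEnd ℂ) (φ x) ∂m = 0)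
    (ψ : K ⧸ Λ → ℂ) (hψ : Continuous ψ) (ε : ℝ) (hε : 0 < ε) :
    ∃ C : ℕ, 1 ≤ C ∧ ∀ a : ℕ → ℂ, (∀ n, ‖a n‖ ≤ 1) → Mult a →
      ∀ R δ δ' : ℝ, 1 ≤ R → 0 < δ' → δ' ≤ δ → δ ≤ 1 →
      ∀ H N : ℕ, C * (R / δ') ^ C ≤ H → H ≤ N →
        Avg f ψ a s {g | Q.GoodEl (π 1) C R δ δ' g} N H ≤ ε * H * Real.log N := by
  have hψr : Reg Λ (fun y : K => ψ (y : K ⧸ Λ)) :=
    ⟨hψ.comp QuotientGroup.continuous_mk, fun x γ hγ => by
      simp only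
      rw [QuotientGroup.mk_mul_of_mem x hγ]⟩
  have hfr : Reg Γ (fun x : G => f (x : G ⧸ Γ)) :=
    ⟨hf.comp QuotientGroup.continuous_mk, fun x γ hγ => by
      simp only
      rw [QuotientGroup.mk_mul_of_mem x hγ]⟩
  have hψinv : Inv (A' (s + 1)) (fun y : K => ψ (y : K ⧸ Λ)) := by
    rw [hs]
    intro z hz x
    rw [Subgroup.mem_bot.mp hz, one_mul]
  obtain ⟨B₀, _, hB₀⟩ := reg_bdd (coc_prime hN) hfr
  obtain ⟨C, hC, hmain⟩ := Q.mean_nilR hN t ht m hm s hs1 f hf hf0 hN' _ hψr hψinv ε hε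
  refine ⟨C, hC, fun a ha hmul R δ δ' hR hδ' hδ hδ1 H N hH hHN => ?_⟩
  refine (avg_le f ψ a s _ N H _ (fun n => GG_nonneg _ _ _ _) ?_).trans
    (hmain C le_rfl a ha hmul R δ δ' hR hδ' hδ hδ1 H N hH hHN)
  intro n g hg x τ hτ
  exact Q.le_GGR (p := π 1) (C := C) (R := R) (d := δ) (δ := δ')
    (T := Q.NilR s (fun y : K => ψ (y : K ⧸ Λ))) (F := fun x : G => f (x : G ⧸ Γ)) ⟨B₀, hB₀⟩
    (Q.nilR_bdd (coc_prime hN') s _ hψr) ha H n ⟨⟨g, hg⟩, x, ⟨τ, hτ⟩⟩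

end Pool.Agent.Lib.MP_663568_nt.NC
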